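import Mathlib

/-!
# H52OM, Abs: the purely algebraic part of the rank computation

`M` an abelian group with an endomorphism `ω`, `P + ω P + ω (ω P) = 0` for all `P`; `φ P = P - ω P`, so `φ φ P = -3 ω P`.
-/

set_option autoImplicit false

namespace Pool.Agent.H52OM

section abs_

variable {M : Type} [AddCommGroup M] (ω : M →+ M) (hω : ∀ P : M, P + ω P + ω (ω P) = 0)

include hω

theorem abs_sq (P : M) : ω (ω P) = -P - ω P := by
  have h := hω P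
  have h1 : ω (ω P) = (P + ω P + ω (ω P)) - P - ω P := by abel
  rw [h1, h]
  abel

theorem abs_phi (P : M) : (P - ω P) - ω (P - ω P) = -(ω P + ω P + ω P) := by
  rw [map_sub, abs_sq ω hω]
  abel

omit hω in
theorem abs_red (n : ℤ) (X : M) : ∃ (r : Fin 3) (Y : M), n • X = (r : ℤ) • X + (Y + Y + Y) := by
  refine ⟨⟨(n % 3).toNat, by omega⟩, (n / 3) • X, ?_⟩
  have h1 : (((n % 3).toNat : ℕ) : ℤ) = n % 3 := Int.toNat_of_nonneg (by omega)
  have h2 : n = n % 3 + (n / 3 + n / 3 + n / 3) := by omega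
  show n • X = ((((n % 3).toNat : ℕ) : ℤ)) • X + _
  rw [h1]
  conv_lhs => rw [h2]
  rw [add_smul, add_smul, add_smul]

/-- Every element is `a T + b Q + c ω Q` modulo 3. -/
theorem abs_dec {T Q : M} (hT : ω T = T) (h : ∀ P : M, ∃ (e f : ℕ) (R : M), P + e • T + f • Q = R - ω R) (P : M) :
    ∃ (a b c : ℤ) (R : M), P = a • T + b • Q + c • ω Q + (R + R + R) := by
  obtain ⟨e, f, R, hR⟩ := h P
  obtain ⟨e', f', R', hR'⟩ := h R
  refine ⟨-e, -f - f', f', -ω R', ?_⟩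
  have h1 : R = R' - ω R' - e' • T - f' • Q := by rw [← hR']; abel
  have h2 : P = R - ω R - e • T - f • Q := by rw [← hR]; abel
  have h3 : ω (R' - ω R') = (R' - ω R') + (ω R' + ω R' + ω R') := by
    have h4 := abs_phi ω hω R'
    have h5 : ω (R' - ω R') = (R' - ω R') - ((R' - ω R') - ω (R' - ω R')) := by abel
    rw [h5, h4]
    abel
  have h6 : ω R = ω (R' - ω R') - e' • T - f' • ω Q := by
    rw [h1, map_sub, map_sub, map_nsmul, map_nsmul, hT]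
  rw [h2, h6, h3, h1]
  rw [neg_smul, sub_smul, neg_smul, natCast_zsmul, natCast_zsmul, natCast_zsmul, natCast_zsmul]
  abel

/-- The finitely many classes modulo 3. -/
theorem abs_rep {T Q : M} (hT : ω T = T) (h : ∀ P : M, ∃ (e f : ℕ) (R : M), P + e • T + f • Q = R - ω R) :
    ∃ S : Set M, S.Finite ∧ ∀ P : M, ∃ t ∈ S, ∃ R : M, P = t + (R + R + R) := by
  refine ⟨Set.range (fun p : Fin 3 × Fin 3 × Fin 3 => (p.1 : ℤ) • T + (p.2.1 : ℤ) • Q + (p.2.2 : ℤ) • ω Q), Set.finite_range _, ?_⟩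
  intro P
  obtain ⟨a, b, c, R, hP⟩ := abs_dec ω hω hT h P
  obtain ⟨a', A, ha⟩ := abs_red a T
  obtain ⟨b', B, hb⟩ := abs_red b Q
  obtain ⟨c', C, hc⟩ := abs_red c (ω Q)
  refine ⟨((a' : ℕ) : ℤ) • T + ((b' : ℕ) : ℤ) • Q + ((c' : ℕ) : ℤ) • ω Q, ⟨(a', b', c'), rfl⟩, A + B + C + R, ?_⟩
  rw [hP, ha, hb, hc]
  obtain ⟨X, hX⟩ : ∃ X : M, X = ((a' : ℕ) : ℤ) • T := ⟨_, rfl⟩
  obtain ⟨Y, hY⟩ : ∃ Y : M, Y = ((b' : ℕ) : ℤ) • Q := ⟨_, rfl⟩
  obtain ⟨Z, hZ⟩ : ∃ Z : M, Z = ((c' : ℕ) : ℤ) • ω Q := ⟨_, rfl⟩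
  rw [← hX, ← hY, ← hZ]
  abel

/-- RANK ONE: the group is finitely generated and generated modulo torsion by `Q, ω Q`. -/
theorem abs_rank (hfg : (∃ S : Set M, S.Finite ∧ ∀ P : M, ∃ t ∈ S, ∃ R : M, P = t + (R + R + R)) → AddGroup.FG M)
    {T Q : M} (hT : ω T = T) (h : ∀ P : M, ∃ (e f : ℕ) (R : M), P + e • T + f • Q = R - ω R) :
    ∃ m : ℕ, 0 < m ∧ ∀ P : M, ∃ a b : ℤ, m • P = a • Q + b • ω Q := by
  have hFG := hfg (abs_rep ω hω hT h)
  have hfin : Module.Finite ℤ M := Module.Finite.iff_addGroup_fg.2 hFG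
  obtain ⟨N, hN⟩ : ∃ N : Submodule ℤ M, ∀ P : M, P ∈ N ↔ ∃ a b c : ℤ, P = a • T + b • Q + c • ω Q := by
    refine ⟨{ carrier := {P | ∃ a b c : ℤ, P = a • T + b • Q + c • ω Q}, add_mem' := ?_, zero_mem' := ?_, smul_mem' := ?_ },
      fun P => Iff.rfl⟩
    · rintro P P' ⟨a, b, c, rfl⟩ ⟨a', b', c', rfl⟩
      refine ⟨a + a', b + b', c + c', ?_⟩
      rw [add_smul, add_smul, add_smul]
      abel
    · exact ⟨0, 0, 0, by simp⟩
    · rintro n P ⟨a, b, c, rfl⟩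
      exact ⟨n * a, n * b, n * c, by rw [smul_add, smul_add, mul_smul, mul_smul, mul_smul]⟩
  have hle : (⊤ : Submodule ℤ M) ≤ N ⊔ (Ideal.span {(3 : ℤ)}) • (⊤ : Submodule ℤ M) := by
    intro P _
    obtain ⟨a, b, c, R, hP⟩ := abs_dec ω hω hT h P
    refine Submodule.mem_sup.2 ⟨_, (hN _).2 ⟨a, b, c, rfl⟩, R + R + R, ?_, hP.symm⟩
    have e : R + R + R = (3 : ℤ) • R := by
      rw [show (3 : ℤ) = 1 + 1 + 1 from rfl, add_smul, add_smul, one_smul]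
    rw [e]
    exact Submodule.smul_mem_smul (Ideal.mem_span_singleton_self _) trivial
  obtain ⟨r, hr, hrN⟩ := Submodule.exists_sub_one_mem_and_smul_le_of_fg_of_le_sup hfin.fg_top le_top hle
  have hr0 : r ≠ 0 := by
    rintro rfl
    rw [Ideal.mem_span_singleton] at hr
    omega
  have hmain : ∀ P : M, ∃ a b : ℤ, (3 * r) • P = a • Q + b • ω Q := by
    intro P
    have h1 : r • P ∈ N := hrN (Submodule.smul_mem_pointwise_smul P r ⊤ trivial)
    obtain ⟨a, b, c, h2⟩ := (hN _).1 h1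
    refine ⟨3 * b, 3 * c, ?_⟩
    have h3T : (3 : ℤ) • T = 0 := by
      have h4 := hω T
      rw [hT, hT] at h4
      rw [show (3 : ℤ) = 1 + 1 + 1 from rfl, add_smul, add_smul, one_smul]
      exact h4
    rw [mul_smul, h2, smul_add, smul_add, smul_comm (3 : ℤ) a T, h3T, smul_zero, zero_add, mul_smul, mul_smul]
  refine ⟨(3 * r).natAbs, Int.natAbs_pos.2 (by omega), fun P => ?_⟩
  obtain ⟨a, b, hab⟩ := hmain P
  rcases Int.natAbs_eq (3 * r) with h1 | h1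
  · exact ⟨a, b, by rw [← natCast_zsmul, ← h1, hab]⟩
  · refine ⟨-a, -b, ?_⟩
    have h2 : (((3 * r).natAbs : ℕ) : ℤ) = -(3 * r) := by omega
    rw [← natCast_zsmul, h2, neg_smul, hab, neg_smul, neg_smul]
    abel

end abs_

end Pool.Agent.H52OM
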