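import Pool.Agent.Lib.H60.UDef.Formulas
import Pool.Agent.Lib.CFT.D2
import Pool.Agent.Lib.H60R.Defs

/-!
# H52OM (S14399, Z[ω]-rank one): definitions

`w` is a primitive third root of unity of `F` (`w² + w + 1 = 0`). `Eo c`: the points of `y² = x³ + (c/2)²`, i.e. `(y - c/2)(y + c/2) = x³`,
`wac w` the automorphism `(x, y) ↦ (w x, y)`, `al P` the descent map: `y + c/2` modulo cubes. `CubE a b`: `a = b s³`. `Nf t A B C`: the norm of
`A + B ρ + C ρ²`, `ρ³ = t`. `Wl v c d`: the class of `d` modulo cubes is in the local image of the curve `Eo c` at `v`.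
`LS S d`: the order of `d` is divisible by 3 outside `S`. `Fc F v`, `va v`, `emb v` (completion, valuation, embedding) as in H60R.
-/

set_option autoImplicit false

open NumberField IsDedekindDomain WeierstrassCurve WeierstrassCurve.Affine
open Pool.Agent.H60.UDef CFT
open Pool.Agent.H60R (Fc va emb va_emb)
open scoped WithZero

namespace Pool.Agent.H52OM

/-- The points of `y² = x³ + (c/2)²`. -/
abbrev Eo {F : Type} [Field F] (c : F) : Type := ((shortW 0 ((c / 2) ^ 2))⁄F).Point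

section curve

variable {F : Type} [Field F] {c : F}

theorem eo_eqn {P : Eo c} {x y : F} (h : IsAt P x y) : y ^ 2 = x ^ 3 + (c / 2) ^ 2 := by
  have := h.eqn
  simpa using this

theorem eo_nonsing [CharZero F] (hc : c ≠ 0) {x y : F} (h : y ^ 2 = x ^ 3 + (c / 2) ^ 2) :
    ∃ P : Eo c, IsAt P x y := by
  refine isAt_of_eqn ?_ (by simpa using h)
  have h2 : (c / 2) ^ 2 ≠ 0 := pow_ne_zero 2 (div_ne_zero hc two_ne_zero)
  have : 27 * ((c / 2) ^ 2) ^ 2 ≠ 0 := mul_ne_zero (by norm_num) (pow_ne_zero 2 h2)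
  simpa using this

open Classical in
/-- The automorphism `(x, y) ↦ (w x, y)` (for `w³ = 1`). -/
noncomputable def wac (w : F) (P : Eo c) : Eo c :=
  if h : ∃ (Q : Eo c) (x y : F), IsAt P x y ∧ IsAt Q (w * x) y then h.choose else 0

theorem wac_zero (w : F) : wac w (0 : Eo c) = 0 := by
  unfold wac
  rw [dif_neg]
  rintro ⟨Q, x, y, h, -⟩
  exact h.ne_zero rfl

/-- `w² + w + 1 = 0` implies `w³ = 1`. -/
theorem w_cube {w : F} (hw : w ^ 2 + w + 1 = 0) : w ^ 3 = 1 := by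
  linear_combination (w - 1) * hw

theorem wac_isAt [CharZero F] (hc : c ≠ 0) {w : F} (hw : w ^ 2 + w + 1 = 0) {P : Eo c} {x y : F} (h : IsAt P x y) :
    IsAt (wac w P) (w * x) y := by
  have e : y ^ 2 = (w * x) ^ 3 + (c / 2) ^ 2 := by
    rw [mul_pow, w_cube hw, one_mul, eo_eqn h]
  obtain ⟨Q, hQ⟩ := eo_nonsing hc e
  have hex : ∃ (Q : Eo c) (x y : F), IsAt P x y ∧ IsAt Q (w * x) y := ⟨Q, x, y, h, hQ⟩
  unfold wac
  rw [dif_pos hex]
  obtain ⟨x', y', h1, h2⟩ := hex.choose_spec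
  obtain ⟨e1, e2⟩ := h1.unique h
  rw [e1, e2] at h2
  exact h2

open Classical in
/-- The descent map: `y + c/2`, and `c⁻¹` at `(0, -c/2)`, `1` at the origin. -/
noncomputable def al (P : Eo c) : F :=
  if h : ∃ y x : F, IsAt P x y ∧ y + c / 2 ≠ 0 then h.choose + c / 2 else if P = 0 then 1 else c⁻¹

theorem al_zero : al (0 : Eo c) = 1 := by
  unfold al
  rw [dif_neg, if_pos rfl]
  rintro ⟨y, x, h, -⟩
  exact h.ne_zero rfl

theorem al_isAt {P : Eo c} {x y : F} (h : IsAt P x y) (hy : y + c / 2 ≠ 0) : al P = y + c / 2 := by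
  have hex : ∃ y x : F, IsAt P x y ∧ y + c / 2 ≠ 0 := ⟨y, x, h, hy⟩
  unfold al
  rw [dif_pos hex, (hex.choose_spec.choose_spec.1.unique h).2]

/-- The value at the point `(0, -c/2)`. -/
theorem al_T' {P : Eo c} {x y : F} (h : IsAt P x y) (hy : y + c / 2 = 0) : al P = c⁻¹ := by
  unfold al
  rw [dif_neg, if_neg h.ne_zero]
  rintro ⟨y', x', h', hy'⟩
  apply hy'
  rw [(h'.unique h).2]
  exact hy

/-- The value at the point `(0, c/2)`. -/
theorem al_T [CharZero F] (hc : c ≠ 0) {P : Eo c} {x : F} (h : IsAt P x (c / 2)) : al P = c := by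
  rw [al_isAt h, add_halves]
  rw [add_halves]
  exact hc

theorem al_ne (hc : c ≠ 0) (P : Eo c) : al P ≠ 0 := by
  by_cases h0 : P = 0
  · rw [h0, al_zero]
    exact one_ne_zero
  · obtain ⟨x, y, h⟩ := exists_isAt h0
    by_cases hy : y + c / 2 = 0
    · rw [al_T' h hy]
      exact inv_ne_zero hc
    · rw [al_isAt h hy]
      exact hy

end curve

/-- `a` and `b` are equal up to the cube of a nonzero element. -/
def CubE {F : Type} [Field F] (a b : F) : Prop := ∃ s : F, s ≠ 0 ∧ a = b * s ^ 3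

theorem CubE.refl {F : Type} [Field F] (a : F) : CubE a a := ⟨1, one_ne_zero, by ring⟩

theorem CubE.symm {F : Type} [Field F] {a b : F} (h : CubE a b) : CubE b a := by
  obtain ⟨s, hs, e⟩ := h
  exact ⟨s⁻¹, inv_ne_zero hs, by rw [e]; field_simp⟩

theorem CubE.trans {F : Type} [Field F] {a b c : F} (h : CubE a b) (h' : CubE b c) : CubE a c := by
  obtain ⟨s, hs, e⟩ := h
  obtain ⟨t, ht, e'⟩ := h'
  exact ⟨t * s, mul_ne_zero ht hs, by rw [e, e']; ring⟩

theorem CubE.mul {F : Type} [Field F] {a b c d : F} (h : CubE a b) (h' : CubE c d) : CubE (a * c) (b * d) := by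
  obtain ⟨s, hs, e⟩ := h
  obtain ⟨t, ht, e'⟩ := h'
  exact ⟨s * t, mul_ne_zero hs ht, by rw [e, e']; ring⟩

theorem CubE.inv {F : Type} [Field F] {a b : F} (h : CubE a b) : CubE a⁻¹ b⁻¹ := by
  obtain ⟨s, hs, e⟩ := h
  exact ⟨s⁻¹, inv_ne_zero hs, by rw [e, mul_inv, inv_pow]⟩

theorem CubE.ne {F : Type} [Field F] {a b : F} (h : CubE a b) (hb : b ≠ 0) : a ≠ 0 := by
  obtain ⟨s, hs, e⟩ := h
  rw [e]
  exact mul_ne_zero hb (pow_ne_zero 3 hs)

theorem CubE.map {F K : Type} [Field F] [Field K] (f : F →+* K) {a b : F} (h : CubE a b) : CubE (f a) (f b) := by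
  obtain ⟨s, hs, e⟩ := h
  exact ⟨f s, (map_ne_zero f).2 hs, by rw [e, map_mul, map_pow]⟩

/-- The norm form of the cubic extension `ρ³ = t`: the norm of `A + B ρ + C ρ²`. -/
def Nf {F : Type} [Field F] (t A B C : F) : F := A ^ 3 + t * B ^ 3 + t ^ 2 * C ^ 3 - 3 * t * A * B * C

section local_

variable {F : Type} [Field F] [NumberField F]

/-- The class of `d` is in the local image of `y² = x³ + (c/2)²` at `v`. -/
def Wl (v : Pr F) (c d : F) : Prop :=
  CubE (emb v d) 1 ∨ CubE (emb v d) (emb v c)⁻¹ ∨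
    ∃ x y : Fc F v, y + emb v c / 2 ≠ 0 ∧ y ^ 2 = x ^ 3 + (emb v c / 2) ^ 2 ∧ CubE (emb v d) (y + emb v c / 2)

/-- The order of `d` is divisible by 3 outside `S`. -/
def LS (S : Finset (Pr F)) (d : F) : Prop := d ≠ 0 ∧ ∀ v : Pr F, v ∉ S → (3 : ℤ) ∣ od v d

/-- `S` contains the primes above 3. -/
def Ab3 (S : Finset (Pr F)) : Prop := ∀ v : Pr F, (3 : 𝓞 F) ∈ v.asIdeal → v ∈ S

theorem od_pow (v : Pr F) {x : F} (hx : x ≠ 0) (n : ℕ) : od v (x ^ n) = n * od v x := by
  induction n with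
  | zero => rw [pow_zero, od_one]; simp
  | succ n ih =>
    rw [pow_succ, od_mul v (pow_ne_zero n hx) hx, ih]
    push_cast
    ring

/-- The order modulo 3 depends only on the class modulo cubes. -/
theorem cubE_od {a b : F} (h : CubE a b) (hb : b ≠ 0) (v : Pr F) : (3 : ℤ) ∣ od v a - od v b := by
  obtain ⟨s, hs, e⟩ := h
  rw [e, od_mul v hb (pow_ne_zero 3 hs), od_pow v hs]
  exact ⟨od v s, by push_cast; ring⟩

theorem cubE_ls {S : Finset (Pr F)} {a b : F} (h : CubE a b) (hb : LS S b) : LS S a := by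
  refine ⟨h.ne hb.1, fun v hv => ?_⟩
  have h1 := cubE_od h hb.1 v
  have h2 := hb.2 v hv
  omega

theorem cubE_wl {v : Pr F} {c a b : F} (h : CubE a b) (hb : Wl v c b) : Wl v c a := by
  have h' := h.map (emb v)
  rcases hb with h1 | h1 | ⟨x, y, h1, h2, h3⟩
  · exact Or.inl (h'.trans h1)
  · exact Or.inr (Or.inl (h'.trans h1))
  · exact Or.inr (Or.inr ⟨x, y, h1, h2, h'.trans h3⟩)

end local_

end Pool.Agent.H52OM
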