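import Pool.Agent.Lib.H52OM.Defs

/-!
# H52OM: the input of module SZ (a definition, no proof)
-/

set_option autoImplicit false

open NumberField IsDedekindDomain WeierstrassCurve WeierstrassCurve.Affine
open Pool.Agent.H60.UDef CFT
open scoped WithZero

namespace Pool.Agent.H52OM

/-- Two prime elements in one class whose difference is a cube (the special case `m = 3`, `c = 1` of `PrimeDiff` of H60R). -/
def PD3 (F : Type) [Field F] [NumberField F] : Prop :=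
  ∀ (S : Finset (Pr F)) (N : ℕ) (x₀ : F), x₀ ≠ 0 →
    ∃ (π₁ π₂ X : F) (p₁ p₂ : Pr F), X ≠ 0 ∧ p₁ ≠ p₂ ∧ p₁ ∉ S ∧ p₂ ∉ S ∧ π₁ ≠ 0 ∧ π₂ ≠ 0 ∧
      Ray S N (π₁ / x₀) ∧ Ray S N (π₂ / x₀) ∧
      (∀ v ∉ S, v ≠ p₁ → od v π₁ = 0) ∧ od p₁ π₁ = 1 ∧ (∀ v ∉ S, v ≠ p₂ → od v π₂ = 0) ∧ od p₂ π₂ = 1 ∧
      π₂ - π₁ = X ^ 3

end Pool.Agent.H52OM
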