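import Mathlib
import Pool.Agent.Lib.H19MW.Short

/-!
# H52OM, MW3: descent with 3 instead of 2

`mw3_short`: if the points of `y² = x³ + a x + b` over a number field have a finite set of representatives modulo 3 then they are a finitely
generated group. Three uses of the parallelogram law of H19MW: `ht (3 P) ≥ 9 ht P - C`, `ht P ≤ 2 ht (Q + P) + C Q`.
-/

set_option autoImplicit false

open WeierstrassCurve WeierstrassCurve.Affine Height Pool.Agent.H60.UDef H19MW

namespace Pool.Agent.H52OM

/-- The abstract part. -/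
theorem mw3_abs {G : Type} [AddCommGroup G] {h : G → ℝ} {C : ℝ} (h1 : ∀ x, 0 ≤ h x)
    (h2 : ∀ x y, |h (x + y) + h (x - y) - 2 * (h x + h y)| ≤ C) [Northcott h]
    (T : Set G) (hT : T.Finite) (hrep : ∀ P : G, ∃ t ∈ T, ∃ R : G, P = t + (R + R + R)) : AddGroup.FG G := by
  have e3 : ∀ x : G, 3 • x = x + x + x := fun x => by
    rw [show (3 : ℕ) = 2 + 1 from rfl, add_nsmul, two_nsmul, one_nsmul]
  have H3 : ∀ x : G, 9 * h x - (3 * C + 2 * h 0) ≤ h (3 • x) := by
    intro x
    have a1 := h2 x x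
    have a2 := h2 (x + x) x
    rw [sub_self] at a1
    rw [add_sub_cancel_right] at a2
    rw [e3]
    rw [abs_le] at a1 a2
    linarith [a1.1, a1.2, a2.1, a2.2]
  have H2 : ∀ g x : G, h x ≤ 2 * h (g + x) + (2 * h (-g) + C) := by
    intro g x
    have a1 := h2 (g + x) (-g)
    have e1 : g + x + -g = x := by abel
    rw [e1, abs_le] at a1
    linarith [a1.1, a1.2, h1 (g + x - -g)]
  refine AddCommGroup.fg_of_descent (n := 3) (b := 9) (by norm_num) (by norm_num) ?_ H2 H3
  haveI : Finite T := hT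
  have hf : Finite (G ⧸ (nsmulAddMonoidHom (α := G) 3).range) := by
    refine Finite.of_surjective (fun Q : T => ((Q : G) : G ⧸ (nsmulAddMonoidHom (α := G) 3).range)) ?_
    intro q
    obtain ⟨P, rfl⟩ := QuotientAddGroup.mk_surjective q
    obtain ⟨Q, hQ, R, hR⟩ := hrep P
    refine ⟨⟨Q, hQ⟩, ?_⟩
    rw [QuotientAddGroup.eq]
    exact ⟨R, by
      change 3 • R = -Q + P
      rw [hR, neg_add_cancel_left, e3]⟩
  exact AddSubgroup.finiteIndex_of_finite_quotient

open scoped Classical in
theorem mw3_short {F : Type} [Field F] [NumberField F] (a b : F) (h : 4 * a ^ 3 + 27 * b ^ 2 ≠ 0)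
    (T : Set ((shortW a b)⁄F).Point) (hT : T.Finite) (hrep : ∀ P : ((shortW a b)⁄F).Point, ∃ t ∈ T, ∃ R, P = t + (R + R + R)) :
    AddGroup.FG ((shortW a b)⁄F).Point := by
  haveI := short_bc (K := F) a b h
  obtain ⟨C, hC⟩ := parallelogram (WeierstrassCurve.baseChange (shortW a b) F) (F := F) two_ne_zero
  haveI := ht_northcott (WeierstrassCurve.baseChange (shortW a b) F)
  exact mw3_abs (ht_nonneg (WeierstrassCurve.baseChange (shortW a b) F)) hC T hT hrep

end Pool.Agent.H52OM
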