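import Pool.Agent.Lib.H52OM.O22
import Pool.Agent.Lib.SZ.P6

/-!
# H52OM, Main: the omega family, unconditionally

For every number field `F` containing a primitive third root of unity `w` there are `c ≠ 0` in `F` and a point `Q` of infinite order on
`y² = x³ + (c/2)²` over `F` such that for some `m > 0` every `m P` is of the form `a Q + b w Q`.
-/

set_option autoImplicit false

open NumberField IsDedekindDomain WeierstrassCurve WeierstrassCurve.Affine
open Pool.Agent.H60.UDef CFT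
open scoped WithZero

namespace Pool.Agent.H52OM

theorem pd3 (F : Type) [Field F] [NumberField F] : PD3 F := by
  intro S N x₀ hx₀
  obtain ⟨π₁, π₂, X, p₁, p₂, h1, h2, h3, h4, h5, h6, h7, h8, h9, h10, h11, h12, h13⟩ :=
    Pool.Agent.SZ.prDiff_all F 3 (Or.inr rfl) S N x₀ hx₀ 1 one_ne_zero
  exact ⟨π₁, π₂, X, p₁, p₂, h1, h2, h3, h4, h5, h6, h7, h8, h9, h10, h11, h12, by rw [h13, one_mul]⟩

open Classical in
theorem om_rank_one' (F : Type) [Field F] [NumberField F] {w : F} (hw : w ^ 2 + w + 1 = 0) :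
    ∃ c : F, c ≠ 0 ∧ ∃ Q : Eo c, (∀ n : ℕ, 0 < n → n • Q ≠ 0) ∧
      ∃ m : ℕ, 0 < m ∧ ∀ P : Eo c, ∃ a b : ℤ, m • P = a • Q + b • wac w Q :=
  om_rank_one F (pd3 F) hw

end Pool.Agent.H52OM
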