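import Pool.Agent.Lib.H52OM.Defs

/-!
# O01: the norm form and ISOTROPY

`Nf t` is the norm form of `ρ³ = t`. `nf_mul`: multiplicative. `isotropy`: for two points of `(y - c/2)(y + c/2) = x³` the number
`y + c/2` is a value of the norm form of `ρ³ = y' + c/2`. IDENTITY (`s = y + c/2`, `t = y' + c/2`):
`Nf t (s, -x, x x'/t) = s · Nf t (x + x', x'²/t, 1)`.
-/

set_option autoImplicit false

open NumberField IsDedekindDomain WeierstrassCurve WeierstrassCurve.Affine
open Pool.Agent.H60.UDef CFT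
open Pool.Agent.H60R (Fc va emb va_emb)
open scoped WithZero

namespace Pool.Agent.H52OM

section nf

variable {k : Type} [Field k]

theorem nf_mul (t A B C A' B' C' : k) : Nf t A B C * Nf t A' B' C' =
    Nf t (A * A' + t * (B * C' + C * B')) (A * B' + B * A' + t * C * C') (A * C' + B * B' + C * A') := by
  unfold Nf
  ring

theorem nf_smul (t s A B C : k) : Nf t (s * A) (s * B) (s * C) = s ^ 3 * Nf t A B C := by
  unfold Nf
  ring

/-- A change of `t` by a cube. -/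
theorem nf_cube (t s A B C : k) : Nf (t * s ^ 3) A B C = Nf t A (s * B) (s ^ 2 * C) := by
  unfold Nf
  ring

/-- The quotient of two values is a value. -/
theorem nf_div (t A B C A' B' C' : k) (h : Nf t A' B' C' ≠ 0) : ∃ A'' B'' C'', Nf t A B C / Nf t A' B' C' = Nf t A'' B'' C'' := by
  obtain ⟨n, hn⟩ : ∃ n, n = Nf t A' B' C' := ⟨_, rfl⟩
  have e1 := nf_mul t A' B' C' A' B' C'
  have e2 := nf_mul t A B C (A' * A' + t * (B' * C' + C' * B')) (A' * B' + B' * A' + t * C' * C') (A' * C' + B' * B' + C' * A')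
  rw [← e1] at e2
  refine ⟨n⁻¹ * (A * (A' * A' + t * (B' * C' + C' * B')) + t * (B * (A' * C' + B' * B' + C' * A') + C * (A' * B' + B' * A' + t * C' * C'))),
    n⁻¹ * (A * (A' * B' + B' * A' + t * C' * C') + B * (A' * A' + t * (B' * C' + C' * B')) + t * C * (A' * C' + B' * B' + C' * A')),
    n⁻¹ * (A * (A' * C' + B' * B' + C' * A') + B * (A' * B' + B' * A' + t * C' * C') + C * (A' * A' + t * (B' * C' + C' * B'))), ?_⟩
  rw [nf_smul, ← e2, ← hn]
  rw [← hn] at h
  field_simp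

/-- If `t` is a nonzero cube, every element is a value. -/
theorem nf_of_cube [CharZero k] {t r : k} (hr : r ≠ 0) (ht : t = r ^ 3) (a : k) :
    ∃ A B C : k, a = Nf t A B C := by
  -- `Nf r³ A B C` is the product of the `A + w^i r B + w^(2i) r² C`; take the three factors `a, 1, 1`
  refine ⟨(a + 2) / 3, (a - 1) / (3 * r), (a - 1) / (3 * r ^ 2), ?_⟩
  subst ht
  unfold Nf
  have h3 : (3 : k) ≠ 0 := three_ne_zero
  field_simp
  ring

/-- If the norm form has a zero with `C = 1`, then `t` is a cube. -/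
theorem nf_zero {t b c : k} (h : Nf t c b 1 = 0) : ∃ r : k, t = r ^ 3 := by
  by_cases hb : b ^ 2 = c
  · refine ⟨b, ?_⟩
    have h1 : (t - b ^ 3) ^ 2 = 0 := by
      rw [← h]
      unfold Nf
      rw [← hb]
      ring
    exact sub_eq_zero.1 (pow_eq_zero_iff two_ne_zero |>.1 h1)
  · have hb' : b ^ 2 - c ≠ 0 := sub_ne_zero.2 hb
    refine ⟨(t - b * c) / (b ^ 2 - c), ?_⟩
    rw [div_pow, eq_div_iff (pow_ne_zero 3 hb')]
    have h1 : Nf t c b 1 * (t - b ^ 3) = 0 := by rw [h, zero_mul]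
    unfold Nf at h1
    linear_combination -h1

/-- `a` is a value of the norm form. -/
def IsN (t a : k) : Prop := ∃ A B C : k, a = Nf t A B C

theorem isN_cubE {t a b : k} (h : CubE a b) (hb : IsN t b) : IsN t a := by
  obtain ⟨s, -, e⟩ := h
  obtain ⟨A, B, C, hABC⟩ := hb
  exact ⟨s * A, s * B, s * C, by rw [nf_smul, e, hABC]; ring⟩

theorem isN_cubE' {t t' a : k} (h : CubE t t') (ha : IsN t' a) : IsN t a := by
  obtain ⟨s, -, e⟩ := h.symm
  obtain ⟨A, B, C, hABC⟩ := ha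
  rw [e, nf_cube] at hABC
  exact ⟨_, _, _, hABC⟩

theorem isN_cube (t s : k) : IsN t (s ^ 3) := ⟨s, 0, 0, by unfold Nf; ring⟩

theorem isN_inv {t a : k} (h : IsN t a) (ha : a ≠ 0) : IsN t a⁻¹ := by
  obtain ⟨A, B, C, hABC⟩ := h
  rw [hABC] at ha
  obtain ⟨A', B', C', h'⟩ := nf_div t 1 0 0 A B C ha
  refine ⟨A', B', C', ?_⟩
  rw [← h', hABC]
  unfold Nf
  ring

theorem isN_tinv {t a : k} (h : IsN t a) (ht : t ≠ 0) : IsN t⁻¹ a := by
  obtain ⟨A, B, C, hABC⟩ := h
  refine ⟨A, t * C, t * B, ?_⟩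
  rw [hABC]
  unfold Nf
  field_simp
  ring

end nf

theorem isotropy {k : Type} [Field k] [CharZero k] {c x y x' y' : k}
    (h : y ^ 2 = x ^ 3 + (c / 2) ^ 2) (h' : y' ^ 2 = x' ^ 3 + (c / 2) ^ 2) (ht' : y' + c / 2 ≠ 0) :
    ∃ A B C : k, y + c / 2 = Nf (y' + c / 2) A B C := by
  obtain ⟨s, hs⟩ : ∃ s, s = y + c / 2 := ⟨_, rfl⟩
  obtain ⟨t, ht⟩ : ∃ t, t = y' + c / 2 := ⟨_, rfl⟩
  have e1 : x ^ 3 = s * (s - c) := by rw [hs]; linear_combination -h
  have e2 : x' ^ 3 = t * (t - c) := by rw [ht]; linear_combination -h'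
  rw [← hs, ← ht]
  rw [← ht] at ht'
  by_cases h0 : Nf t (x + x') (x' ^ 2 / t) 1 = 0
  · obtain ⟨r, hr⟩ := nf_zero h0
    have hr0 : r ≠ 0 := by
      rintro rfl
      apply ht'
      rw [hr]
      ring
    exact nf_of_cube hr0 hr s
  · have key : Nf t s (-x) (x * x' / t) = s * Nf t (x + x') (x' ^ 2 / t) 1 := by
      have e3 : x' ^ 3 / t = t - c := by rw [e2]; field_simp
      have L : Nf t s (-x) (x * x' / t) = s ^ 3 - t * x ^ 3 + x ^ 3 * (x' ^ 3 / t) + 3 * s * x ^ 2 * x' := by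
        unfold Nf
        field_simp
        ring
      have R : Nf t (x + x') (x' ^ 2 / t) 1 = (x + x') ^ 3 + (x' ^ 3 / t) ^ 2 + t ^ 2 - 3 * (x + x') * x' ^ 2 := by
        unfold Nf
        field_simp
      rw [L, R, e3]
      linear_combination (-(c + s)) * e1 + 2 * s * e2
    have e4 : s = Nf t s (-x) (x * x' / t) / Nf t (x + x') (x' ^ 2 / t) 1 := by
      rw [key, mul_div_assoc, div_self h0, mul_one]
    obtain ⟨A, B, C, hABC⟩ := nf_div t s (-x) (x * x' / t) (x + x') (x' ^ 2 / t) 1 h0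
    exact ⟨A, B, C, by rw [← hABC]; exact e4⟩

end Pool.Agent.H52OM
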