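import Pool.Agent.Lib.H52OM.Defs
import Pool.Agent.Lib.H52OM.O01

/-!
# O02: isotropy of the local images
-/

set_option autoImplicit false

open NumberField IsDedekindDomain WeierstrassCurve WeierstrassCurve.Affine
open Pool.Agent.H60.UDef CFT
open Pool.Agent.H60R (Fc va emb va_emb)
open scoped WithZero

namespace Pool.Agent.H52OM

theorem wl_iso {F : Type} [Field F] [NumberField F] (v : Pr F) {c d d' : F} (hc : c ≠ 0)
    (hd : Wl v c d) (hd' : Wl v c d') : ∃ A B C : Fc F v, emb v d = Nf (emb v d') A B C := by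
  have hch : CharZero (Fc F v) := charZero_of_injective_ringHom (emb v).injective
  have hcc : emb v c ≠ 0 := (map_ne_zero (emb v)).2 hc
  have h0 : (emb v c / 2) ^ 2 = (0 : Fc F v) ^ 3 + (emb v c / 2) ^ 2 := by ring
  have hT : emb v c / 2 + emb v c / 2 ≠ 0 := by rwa [add_halves]
  -- for a point `(x', y')`
  have key : ∀ x' y' : Fc F v, y' + emb v c / 2 ≠ 0 → y' ^ 2 = x' ^ 3 + (emb v c / 2) ^ 2 →
      IsN (y' + emb v c / 2) (emb v d) := by
    intro x' y' ht' h'
    rcases hd with h | h | ⟨x, y, hy, hxy, h⟩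
    · exact isN_cubE h (by simpa using isN_cube (y' + emb v c / 2) 1)
    · have h1 : IsN (y' + emb v c / 2) (emb v c) := by
        have := isotropy h0 h' ht'
        rwa [add_halves] at this
      exact isN_cubE h (isN_inv h1 hcc)
    · exact isN_cubE h (isotropy hxy h' ht')
  rcases hd' with h | h | ⟨x', y', hy', hxy', h⟩
  · obtain ⟨s, hs, e⟩ := h
    exact nf_of_cube hs (by rw [e, one_mul]) _
  · have h1 := key 0 (emb v c / 2) hT h0
    rw [add_halves] at h1
    exact isN_cubE' h (isN_tinv h1 hcc)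
  · exact isN_cubE' h (key x' y' hy' hxy')

end Pool.Agent.H52OM
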