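import Pool.Agent.Lib.H52OM.Defs
import Pool.Agent.Lib.H60R.D03

/-!
# O03: cube roots near 1 in the completion

`t = 1 + 9 e`, `va e < 1`; `w + 3 w² + 3 w³ = e` by iteration; `(1 + 3 w)³ = t`.
-/

set_option autoImplicit false

open NumberField IsDedekindDomain WeierstrassCurve WeierstrassCurve.Affine
open Pool.Agent.H60.UDef CFT
open Pool.Agent.H60R (Fc va emb va_emb d03_cauchy)
open scoped WithZero

namespace Pool.Agent.H52OM

theorem o03_root {K : Type} [Field K] [Valued K ℤᵐ⁰] [CompleteSpace K] [T2Space K] {e : K} (h3 : (Valued.v (3 : K) : ℤᵐ⁰) ≤ 1)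
    (he : (Valued.v e : ℤᵐ⁰) < 1) : ∃ w : K, w + 3 * w ^ 2 + 3 * w ^ 3 = e ∧ (Valued.v w : ℤᵐ⁰) < 1 := by
  obtain ⟨u, hu0, hu⟩ : ∃ u : ℕ → K, u 0 = 0 ∧ ∀ n, u (n + 1) = e - (3 * u n ^ 2 + 3 * u n ^ 3) :=
    ⟨fun n => Nat.rec 0 (fun _ y => e - (3 * y ^ 2 + 3 * y ^ 3)) n, rfl, fun n => rfl⟩
  have h1 : ∀ n, (Valued.v (u n) : ℤᵐ⁰) ≤ Valued.v e := by
    intro n
    induction n with
    | zero =>
      rw [hu0, map_zero]
      exact zero_le
    | succ n ih =>
      rw [hu n]
      refine Valuation.map_sub_le _ le_rfl ?_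
      have e1 : 3 * u n ^ 2 + 3 * u n ^ 3 = 3 * (u n * (u n + u n * u n)) := by ring
      have h4 : (Valued.v (u n + u n * u n) : ℤᵐ⁰) ≤ 1 := by
        refine Valuation.map_add_le _ (ih.trans he.le) ?_
        rw [map_mul]
        exact mul_le_one' (ih.trans he.le) (ih.trans he.le)
      rw [e1, map_mul, map_mul]
      calc (Valued.v (3 : K) : ℤᵐ⁰) * (Valued.v (u n) * Valued.v (u n + u n * u n)) ≤ 1 * (Valued.v e * 1) :=
            mul_le_mul' h3 (mul_le_mul' ih h4)
        _ = Valued.v e := by rw [one_mul, mul_one]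
  have h2 : ∀ n, (Valued.v (u (n + 1) - u n) : ℤᵐ⁰) ≤ Valued.v e ^ (n + 1) := by
    intro n
    induction n with
    | zero =>
      rw [hu 0, hu0, zero_add, pow_one]
      simp
    | succ n ih =>
      have h3' : u (n + 1 + 1) - u (n + 1) = -((u (n + 1) - u n) * (3 * (u (n + 1) + u n + u (n + 1) * u (n + 1) +
          (u (n + 1) * u n + u n * u n)))) := by
        rw [hu (n + 1)]
        have h4 := hu n
        linear_combination (-1 : K) * h4
      have h4 : (Valued.v (3 * (u (n + 1) + u n + u (n + 1) * u (n + 1) + (u (n + 1) * u n + u n * u n))) : ℤᵐ⁰) ≤ Valued.v e := by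
        have h5 : ∀ a b : ℕ, (Valued.v (u a * u b) : ℤᵐ⁰) ≤ Valued.v e := by
          intro a b
          rw [map_mul]
          calc (Valued.v (u a) : ℤᵐ⁰) * Valued.v (u b) ≤ Valued.v e * 1 := mul_le_mul' (h1 a) ((h1 b).trans he.le)
            _ = Valued.v e := mul_one _
        rw [map_mul]
        calc _ ≤ 1 * (Valued.v e : ℤᵐ⁰) := by
              refine mul_le_mul' h3 ?_
              refine Valuation.map_add_le _ (Valuation.map_add_le _ (Valuation.map_add_le _ (h1 _) (h1 _)) (h5 _ _))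
                (Valuation.map_add_le _ (h5 _ _) (h5 _ _))
          _ = _ := one_mul _
      rw [h3', Valuation.map_neg, map_mul, pow_succ]
      exact mul_le_mul' ih h4
  obtain ⟨w, hw⟩ := cauchySeq_tendsto_of_complete (d03_cauchy he h2)
  have h5 : Filter.Tendsto (fun n => u (n + 1)) Filter.atTop (nhds w) := (Filter.tendsto_add_atTop_iff_nat 1).2 hw
  have h6 : Filter.Tendsto (fun n => u (n + 1)) Filter.atTop (nhds (e - (3 * w ^ 2 + 3 * w ^ 3))) := by
    simp only [hu]
    exact tendsto_const_nhds.sub (((hw.pow 2).const_mul 3).add ((hw.pow 3).const_mul 3))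
  have h7 := tendsto_nhds_unique h5 h6
  refine ⟨w, by linear_combination h7, ?_⟩
  have h8 : {y : K | Valued.v.restrict (y - w) < (1 : (MonoidWithZeroHom.ValueGroup₀ (.ofClass (Valued.v (R := K) (Γ₀ := ℤᵐ⁰))))ˣ).1} ∈ nhds w :=
    Valued.mem_nhds.2 ⟨1, subset_rfl⟩
  obtain ⟨n, hn⟩ := (hw.eventually h8).exists
  have h9 : (Valued.v (u n - w) : ℤᵐ⁰) < 1 := by
    have h10 : Valued.v.restrict (u n - w) < 1 := hn
    rwa [Valuation.restrict_lt_one_iff] at h10
  have h11 : w = u n - (u n - w) := by ring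
  rw [h11]
  refine lt_of_le_of_lt (Valuation.map_sub _ _ _) (max_lt (lt_of_le_of_lt (h1 n) he) h9)

theorem cbrt_near {F : Type} [Field F] [NumberField F] (v : Pr F) (h3 : va v (3 : Fc F v) ≤ 1) {t : Fc F v} (h : va v (t - 1) < va v 9) :
    ∃ s : Fc F v, s ^ 3 = t ∧ va v (s - 1) < va v 3 := by
  have h90 : va v 9 ≠ 0 := by
    intro h0
    rw [h0] at h
    exact not_lt_zero h
  have h9 : (9 : Fc F v) ≠ 0 := by
    intro h0
    rw [h0, map_zero] at h90
    exact h90 rfl
  have h30 : va v (3 : Fc F v) ≠ 0 := by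
    intro h0
    have h99 : (9 : Fc F v) = 3 * 3 := by norm_num
    rw [h99, map_mul, h0, zero_mul] at h90
    exact h90 rfl
  have he : va v ((t - 1) / 9) < 1 := by
    rw [map_div₀]
    exact (div_lt_one₀ (zero_lt_iff.2 h90)).2 h
  obtain ⟨w, hw, hw1⟩ := o03_root (K := Fc F v) h3 he
  have hw1' : va v w < 1 := hw1
  refine ⟨1 + 3 * w, ?_, ?_⟩
  · have h8 : 9 * (w + 3 * w ^ 2 + 3 * w ^ 3) = t - 1 := by
      rw [hw]
      field_simp
    linear_combination h8
  · rw [add_sub_cancel_left, map_mul]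
    calc va v 3 * va v w < va v 3 * 1 := mul_lt_mul_of_pos_left hw1' (zero_lt_iff.2 h30)
      _ = va v 3 := mul_one _

end Pool.Agent.H52OM
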