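import Pool.Agent.Lib.H52OM.Defs
import Pool.Agent.Lib.H52OM.O03
import Pool.Agent.Lib.H60R.D04

/-!
# O04: elements close to 1 are cubes
-/

set_option autoImplicit false

open NumberField IsDedekindDomain WeierstrassCurve WeierstrassCurve.Affine
open Pool.Agent.H60.UDef CFT
open Pool.Agent.H60R (Fc va emb va_emb d04_le_one d04_ge)
open scoped WithZero

namespace Pool.Agent.H52OM

theorem o04_three {F : Type} [Field F] [NumberField F] (v : Pr F) : va v (3 : Fc F v) ≤ 1 := by exact_mod_cast d04_le_one v 3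

/-- Outside 3 the number 9 is a unit. -/
theorem o04_nine {F : Type} [Field F] [NumberField F] (v : Pr F) (h3 : (3 : 𝓞 F) ∉ v.asIdeal) : va v (9 : Fc F v) = 1 := by
  have h1 : (9 : Fc F v) = emb v (((3 : 𝓞 F) : F) * ((3 : 𝓞 F) : F)) := by
    have h0 : ((3 : 𝓞 F) : F) = (3 : F) := map_ofNat (algebraMap (𝓞 F) F) 3
    rw [h0, map_mul, map_ofNat]
    norm_num
  rw [h1, va_emb, map_mul]
  have h4 : v.valuation F ((3 : 𝓞 F) : F) = 1 := by
    refine le_antisymm (v.valuation_le_one _) (not_lt.1 fun h5 => h3 ?_)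
    exact (HeightOneSpectrum.valuation_lt_one_iff_mem (K := F) v (3 : 𝓞 F)).1 h5
  rw [h4, one_mul]

/-- `t ≠ 0` if `t` is close to 1. -/
theorem o04_cube {F : Type} [Field F] [NumberField F] (v : Pr F) {t : Fc F v} (h : va v (t - 1) < va v 9) :
    ∃ r : Fc F v, r ≠ 0 ∧ r ^ 3 = t := by
  obtain ⟨r, hr, h1⟩ := cbrt_near v (o04_three v) h
  refine ⟨r, ?_, hr⟩
  rintro rfl
  rw [zero_sub, Valuation.map_neg, map_one] at h1
  exact absurd (o04_three v) (not_le.2 h1)

theorem cube_near {F : Type} [Field F] [NumberField F] (v : Pr F) :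
    ∃ N : ℕ, ∀ t : Fc F v, va v (t - 1) < WithZero.exp (-(N : ℤ)) → ∃ r : Fc F v, r ≠ 0 ∧ r ^ 3 = t := by
  have h90 : va v (9 : Fc F v) ≠ 0 := (Valuation.ne_zero_iff _).2 (by
    have := (map_ne_zero (emb v)).2 (show (9 : F) ≠ 0 by norm_num)
    rwa [map_ofNat] at this)
  obtain ⟨N, hN⟩ := d04_ge (va v 9) h90
  exact ⟨N, fun t ht => o04_cube v (ht.trans_le hN)⟩

end Pool.Agent.H52OM
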