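import Pool.Agent.Lib.H52OM.Defs
import Pool.Agent.Lib.H52OM.O04

/-!
# O05: the local image at a prime outside 3 where the order of `c` is not divisible by 3

`t = y + c/2`, `s = y - c/2`: `t s = x³`, `t - s = c`. If `va t ≠ va s`, the larger one is `va c`, so `od t` or `od s` is `od c`, and
`od t + od s` is divisible by 3, so `od t` is not divisible by 3. If they are equal, `2 od t` is divisible by 3, so `va c < va t`, `t/s` is close to 1 and a cube,
`t² = (t/s) x³` is a cube, so `t` is.
-/

set_option autoImplicit false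

open NumberField IsDedekindDomain WeierstrassCurve WeierstrassCurve.Affine
open Pool.Agent.H60.UDef CFT
open Pool.Agent.H60R (Fc va emb va_emb)
open scoped WithZero

namespace Pool.Agent.H52OM

theorem wl_cub {F : Type} [Field F] [NumberField F] (v : Pr F) (h3 : (3 : 𝓞 F) ∉ v.asIdeal) {c d : F} (hc : ¬ (3 : ℤ) ∣ od v c) (hd0 : d ≠ 0)
    (hd : (3 : ℤ) ∣ od v d) (h : Wl v c d) : CubE (emb v d) 1 := by
  have hch : CharZero (Fc F v) := charZero_of_injective_ringHom (emb v).injective
  have hc0 : c ≠ 0 := by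
    rintro rfl
    rw [od_zero] at hc
    exact hc (dvd_zero 3)
  have hcc : emb v c ≠ 0 := (map_ne_zero (emb v)).2 hc0
  have hdd : emb v d ≠ 0 := (map_ne_zero (emb v)).2 hd0
  have hlc : WithZero.log (va v (emb v c)) = -od v c := by rw [va_emb, val_eq v hc0, WithZero.log_exp]
  have hld : WithZero.log (va v (emb v d)) = -od v d := by rw [va_emb, val_eq v hd0, WithZero.log_exp]
  have hlog : ∀ {a b : Fc F v}, b ≠ 0 → CubE a b → (3 : ℤ) ∣ WithZero.log (va v a) - WithZero.log (va v b) := by
    rintro a b hb ⟨s, hs, e⟩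
    rw [e, map_mul, WithZero.log_mul ((Valuation.ne_zero_iff _).2 hb) ((Valuation.ne_zero_iff _).2 (pow_ne_zero 3 hs)), map_pow, WithZero.log_pow]
    exact ⟨WithZero.log (va v s), by simp⟩
  rcases h with h | h | ⟨x, y, hy, hxy, h⟩
  · exact h
  · exfalso
    have h1 := hlog (inv_ne_zero hcc) h
    rw [hld, map_inv₀, WithZero.log_inv, hlc] at h1
    omega
  obtain ⟨t, ht⟩ : ∃ t, t = y + emb v c / 2 := ⟨_, rfl⟩
  obtain ⟨s, hs⟩ : ∃ s, s = y - emb v c / 2 := ⟨_, rfl⟩
  have hts : t * s = x ^ 3 := by rw [ht, hs]; linear_combination hxy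
  have hsub : t - s = emb v c := by rw [ht, hs]; linear_combination add_halves (emb v c)
  rw [← ht] at hy h
  have h1 := hlog hy h
  rw [hld] at h1
  have hlt3 : (3 : ℤ) ∣ WithZero.log (va v t) := by omega
  by_cases hs0 : s = 0
  · exfalso
    rw [hs0, sub_zero] at hsub
    rw [hsub, hlc] at hlt3
    omega
  have hx0 : x ≠ 0 := by
    rintro rfl
    have : t * s = 0 := by rw [hts]; ring
    exact mul_ne_zero hy hs0 this
  have vt0 := (Valuation.ne_zero_iff (va v)).2 hy
  have vs0 := (Valuation.ne_zero_iff (va v)).2 hs0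
  have hsum : (3 : ℤ) ∣ WithZero.log (va v t) + WithZero.log (va v s) := by
    rw [← WithZero.log_mul vt0 vs0, ← map_mul, hts, map_pow, WithZero.log_pow]
    exact ⟨WithZero.log (va v x), by simp⟩
  rcases lt_trichotomy (va v t) (va v s) with hlt | heq | hgt
  · exfalso
    have h2 : va v (t - s) = va v s := by
      rw [Valuation.map_sub_swap]
      exact Valuation.map_sub_eq_of_lt_left _ hlt
    rw [hsub] at h2
    rw [← h2, hlc] at hsum
    omega
  · have hle : va v (emb v c) ≤ va v s := by
      rw [← hsub]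
      exact Valuation.map_sub_le _ heq.le le_rfl
    have hne : va v (emb v c) ≠ va v s := by
      intro h2
      rw [← h2, hlc] at hsum
      omega
    have hlt : va v (emb v c) < va v s := lt_of_le_of_ne hle hne
    obtain ⟨r, hr0, hr⟩ := o04_cube v (t := t / s) (by
      rw [o04_nine v h3]
      have e : t / s - 1 = emb v c / s := by rw [← hsub]; field_simp
      rw [e, map_div₀]
      exact (div_lt_one₀ (zero_lt_iff.2 vs0)).2 hlt)
    refine h.trans ⟨t / (r * x), div_ne_zero hy (mul_ne_zero hr0 hx0), ?_⟩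
    rw [one_mul, div_pow, mul_pow, hr, ← hts]
    field_simp
  · exfalso
    have h2 : va v (t - s) = va v t := by
      rw [Valuation.map_sub_swap]
      exact Valuation.map_sub_eq_of_lt_right _ hgt
    rw [hsub] at h2
    rw [← h2, hlc] at hlt3
    omega

end Pool.Agent.H52OM
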