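import Pool.Agent.Lib.H52OM.Defs
import Pool.Agent.Lib.CFT.B14
import Pool.Agent.Lib.H60R.D06

/-!
# O06: simultaneous approximation of values of the cubic norm form
-/

set_option autoImplicit false

open NumberField IsDedekindDomain WeierstrassCurve WeierstrassCurve.Affine
open Pool.Agent.H60.UDef CFT
open Pool.Agent.H60R (Fc va emb va_emb dense d06_le d06_ge)
open scoped WithZero

namespace Pool.Agent.H52OM

/-- The norm form is continuous. -/
theorem o06_cont {K : Type} [Field K] (w : Valuation K ℤᵐ⁰) (a₀ b₀ c₀ δ D : K) (hD : D ≠ 0) (N : ℕ) :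
    ∃ M : ℕ, ∀ a b c : K, w (a - a₀) < WithZero.exp (-(M : ℤ)) → w (b - b₀) < WithZero.exp (-(M : ℤ)) →
      w (c - c₀) < WithZero.exp (-(M : ℤ)) →
      w (Nf δ a b c - Nf δ a₀ b₀ c₀) < WithZero.exp (-(N : ℤ)) * w D := by
  obtain ⟨k1, hk1⟩ := d06_le (w a₀)
  obtain ⟨k2, hk2⟩ := d06_le (w b₀)
  obtain ⟨k3, hk3⟩ := d06_le (w c₀)
  obtain ⟨k4, hk4⟩ := d06_le (w δ)
  obtain ⟨l, hl⟩ := d06_ge (w D) ((Valuation.ne_zero_iff w).2 hD)
  obtain ⟨k, hk⟩ : ∃ k : ℕ, k = k1 + k2 + k3 + k4 := ⟨_, rfl⟩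
  have hmono : ∀ (x : K) (p q : ℤ), p ≤ q → w x ≤ WithZero.exp p → w x ≤ WithZero.exp q := fun x p q h h1 =>
    h1.trans (WithZero.exp_le_exp.2 h)
  have hm : ∀ (x y : K) (p q : ℤ), w x ≤ WithZero.exp p → w y ≤ WithZero.exp q → w (x * y) ≤ WithZero.exp (p + q) := by
    intro x y p q h1 h2
    rw [map_mul, WithZero.exp_add]
    exact mul_le_mul' h1 h2
  have h3 : w (3 : K) ≤ WithZero.exp 0 := by
    have e : (3 : K) = 1 + 1 + 1 := by norm_num
    rw [e, WithZero.exp_zero]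
    exact Valuation.map_add_le _ (Valuation.map_add_le _ (by rw [map_one]) (by rw [map_one])) (by rw [map_one])
  refine ⟨N + l + 4 * k, fun a b c ha hb hc => ?_⟩
  have ha0 : w a₀ ≤ WithZero.exp (k : ℤ) := hmono _ _ _ (by rw [hk]; push_cast; omega) hk1
  have hb0 : w b₀ ≤ WithZero.exp (k : ℤ) := hmono _ _ _ (by rw [hk]; push_cast; omega) hk2
  have hc0 : w c₀ ≤ WithZero.exp (k : ℤ) := hmono _ _ _ (by rw [hk]; push_cast; omega) hk3
  have hd : w δ ≤ WithZero.exp (k : ℤ) := hmono _ _ _ (by rw [hk]; push_cast; omega) hk4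
  have hex : ∀ x x₀ : K, w (x - x₀) < WithZero.exp (-((N + l + 4 * k : ℕ) : ℤ)) → w x₀ ≤ WithZero.exp (k : ℤ) → w x ≤ WithZero.exp (k : ℤ) := by
    intro x x₀ h1 h2
    have e : x = (x - x₀) + x₀ := by ring
    rw [e]
    refine Valuation.map_add_le _ (hmono _ _ _ ?_ h1.le) h2
    push_cast
    omega
  have ha' := hex a a₀ ha ha0
  have hb' := hex b b₀ hb hb0
  have hc' := hex c c₀ hc hc0
  have hmk : ∀ {x y : K} {p q : ℕ}, w x ≤ WithZero.exp ((p * k : ℕ) : ℤ) → w y ≤ WithZero.exp ((q * k : ℕ) : ℤ) →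
      w (x * y) ≤ WithZero.exp (((p + q) * k : ℕ) : ℤ) := by
    intro x y p q h1 h2
    have h := hm x y _ _ h1 h2
    rwa [← Nat.cast_add, ← add_mul] at h
  have hup : ∀ {x : K} (p : ℕ) {q : ℕ}, p ≤ q → w x ≤ WithZero.exp ((p * k : ℕ) : ℤ) → w x ≤ WithZero.exp ((q * k : ℕ) : ℤ) := by
    intro x p q h h1
    exact hmono _ _ _ (by exact_mod_cast Nat.mul_le_mul_right k h) h1
  have hone : ∀ {x : K}, w x ≤ WithZero.exp (k : ℤ) → w x ≤ WithZero.exp ((1 * k : ℕ) : ℤ) := by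
    intro x h
    rwa [one_mul]
  have ha0 := hone ha0
  have hb0 := hone hb0
  have hc0 := hone hc0
  have hd := hone hd
  have ha' := hone ha'
  have hb' := hone hb'
  have hc' := hone hc'
  have h3 : w (3 : K) ≤ WithZero.exp ((0 * k : ℕ) : ℤ) := by rwa [zero_mul, Nat.cast_zero]
  have hsq : ∀ {x x₀ : K}, w x ≤ WithZero.exp ((1 * k : ℕ) : ℤ) → w x₀ ≤ WithZero.exp ((1 * k : ℕ) : ℤ) →
      w (x * x + x * x₀ + x₀ * x₀) ≤ WithZero.exp ((2 * k : ℕ) : ℤ) := by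
    intro x x₀ h1 h2
    exact Valuation.map_add_le _ (Valuation.map_add_le _ (hmk h1 h1) (hmk h1 h2)) (hmk h2 h2)
  have ca : w (a * a + a * a₀ + a₀ * a₀ - 3 * δ * b * c) ≤ WithZero.exp ((4 * k : ℕ) : ℤ) :=
    Valuation.map_sub_le _ (hup 2 (by norm_num) (hsq ha' ha0)) (hup 3 (by norm_num) (hmk (hmk (hmk h3 hd) hb') hc'))
  have cb : w (δ * (b * b + b * b₀ + b₀ * b₀) - 3 * δ * a₀ * c) ≤ WithZero.exp ((4 * k : ℕ) : ℤ) :=
    Valuation.map_sub_le _ (hup 3 (by norm_num) (hmk hd (hsq hb' hb0))) (hup 3 (by norm_num) (hmk (hmk (hmk h3 hd) ha0) hc'))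
  have cc : w (δ * δ * (c * c + c * c₀ + c₀ * c₀) - 3 * δ * a₀ * b₀) ≤ WithZero.exp ((4 * k : ℕ) : ℤ) :=
    Valuation.map_sub_le _ (hup 4 (by norm_num) (hmk (hmk hd hd) (hsq hc' hc0))) (hup 3 (by norm_num) (hmk (hmk (hmk h3 hd) ha0) hb0))
  have hterm : ∀ x y : K, w x < WithZero.exp (-((N + l + 4 * k : ℕ) : ℤ)) → w y ≤ WithZero.exp ((4 * k : ℕ) : ℤ) →
      w (x * y) < WithZero.exp (-(N : ℤ)) * w D := by
    intro x y h1 h2
    rw [map_mul]
    have hp : ∀ n : ℤ, (0 : ℤᵐ⁰) < WithZero.exp n := fun n => WithZero.zero_lt_coe _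
    calc w x * w y ≤ w x * WithZero.exp ((4 * k : ℕ) : ℤ) := mul_le_mul_right h2 _
      _ < WithZero.exp (-((N + l + 4 * k : ℕ) : ℤ)) * WithZero.exp ((4 * k : ℕ) : ℤ) := mul_lt_mul_of_pos_right h1 (hp _)
      _ = WithZero.exp (-(N : ℤ)) * WithZero.exp (-(l : ℤ)) := by
          rw [← WithZero.exp_add, ← WithZero.exp_add]
          congr 1
          push_cast
          ring
      _ ≤ _ := mul_le_mul_right hl _
  have e : Nf δ a b c - Nf δ a₀ b₀ c₀ = (a - a₀) * (a * a + a * a₀ + a₀ * a₀ - 3 * δ * b * c) +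
      (b - b₀) * (δ * (b * b + b * b₀ + b₀ * b₀) - 3 * δ * a₀ * c) + (c - c₀) * (δ * δ * (c * c + c * c₀ + c₀ * c₀) - 3 * δ * a₀ * b₀) := by
    unfold Nf
    ring
  rw [e]
  exact Valuation.map_add_lt _ (Valuation.map_add_lt _ (hterm _ _ ha ca) (hterm _ _ hb cb)) (hterm _ _ hc cc)

theorem nf_map {k k' : Type} [Field k] [Field k'] (f : k →+* k') (t A B C : k) : f (Nf t A B C) = Nf (f t) (f A) (f B) (f C) := by
  unfold Nf
  simp only [map_sub, map_add, map_mul, map_pow, map_ofNat]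

theorem norm_approx {F : Type} [Field F] [NumberField F] (hreal : ∀ φ : F →+* ℝ, False) (S : Finset (Pr F)) (N : ℕ) {d d' : F} (hd' : d' ≠ 0)
    (h : ∀ v ∈ S, ∃ A B C : Fc F v, emb v d' = Nf (emb v d) A B C) :
    ∃ A B C : F, Nf d A B C ≠ 0 ∧ Ray S N (d' / Nf d A B C) := by
  classical
  rcases S.eq_empty_or_nonempty with rfl | hne
  · have h1 : Nf d 1 0 0 = 1 := by unfold Nf; ring
    refine ⟨1, 0, 0, by rw [h1]; norm_num, ?_, fun v hv => absurd hv (Finset.notMem_empty v), fun φ => (hreal φ).elim⟩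
    rw [h1]
    simpa using hd'
  -- local data
  have hloc : ∀ v : Pr F, ∃ (M : ℕ) (a b c : F), v ∈ S → ∀ a' b' c' : F, v.valuation F (a' - a) < WithZero.exp (-(M : ℤ)) →
      v.valuation F (b' - b) < WithZero.exp (-(M : ℤ)) → v.valuation F (c' - c) < WithZero.exp (-(M : ℤ)) →
      v.valuation F (Nf d a' b' c' - d') < WithZero.exp (-(N : ℤ)) * v.valuation F d' := by
    intro v
    by_cases hv : v ∈ S
    · obtain ⟨a₀, b₀, c₀, h0⟩ := h v hv
      have hc : emb v d' ≠ 0 := (map_ne_zero (emb v)).2 hd'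
      obtain ⟨M, hM⟩ := o06_cont (va v) a₀ b₀ c₀ (emb v d) (emb v d') hc N
      obtain ⟨a, ha⟩ := dense v a₀ M
      obtain ⟨b, hb⟩ := dense v b₀ M
      obtain ⟨c, hc⟩ := dense v c₀ M
      refine ⟨M, a, b, c, fun _ a' b' c' ha' hb' hc' => ?_⟩
      have e1 : ∀ (x' x : F) (x₀ : Fc F v), emb v x' - x₀ = emb v (x' - x) - (x₀ - emb v x) := by
        intro x' x x₀
        rw [map_sub]
        ring
      have h1 := hM (emb v a') (emb v b') (emb v c') (by
        rw [e1 a' a]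
        exact Valuation.map_sub_lt _ (by rwa [va_emb]) ha) (by
        rw [e1 b' b]
        exact Valuation.map_sub_lt _ (by rwa [va_emb]) hb) (by
        rw [e1 c' c]
        exact Valuation.map_sub_lt _ (by rwa [va_emb]) hc)
      rw [← h0, ← nf_map, ← map_sub, va_emb, va_emb] at h1
      exact h1
    · exact ⟨0, 0, 0, 0, fun h => absurd h hv⟩
  choose M a₀ b₀ c₀ hM using hloc
  obtain ⟨a, -, ha, -⟩ := approx S (∑ v ∈ S, M v) a₀ (fun _ => 1) (fun _ => one_ne_zero)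
  obtain ⟨b, -, hb, -⟩ := approx S (∑ v ∈ S, M v) b₀ (fun _ => 1) (fun _ => one_ne_zero)
  obtain ⟨c, -, hc, -⟩ := approx S (∑ v ∈ S, M v) c₀ (fun _ => 1) (fun _ => one_ne_zero)
  have hle : ∀ v ∈ S, WithZero.exp (-((∑ v ∈ S, M v : ℕ) : ℤ)) ≤ WithZero.exp (-(M v : ℤ)) := by
    intro v hv
    rw [WithZero.exp_le_exp]
    have := Finset.single_le_sum (f := M) (fun _ _ => Nat.zero_le _) hv
    omega
  have hmain : ∀ v ∈ S, v.valuation F (Nf d a b c - d') < WithZero.exp (-(N : ℤ)) * v.valuation F d' := fun v hv =>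
    hM v hv a b c ((ha v hv).trans_le (hle v hv)) ((hb v hv).trans_le (hle v hv)) ((hc v hv).trans_le (hle v hv))
  have hval : ∀ v ∈ S, v.valuation F (Nf d a b c) = v.valuation F d' := by
    intro v hv
    have h1 : v.valuation F (Nf d a b c - d') < v.valuation F d' := by
      refine (hmain v hv).trans_le ?_
      calc _ ≤ 1 * v.valuation F d' := mul_le_mul_left (exp_le_one N) _
        _ = _ := one_mul _
    have h2 : Nf d a b c = (Nf d a b c - d') + d' := by ring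
    rw [h2]
    exact Valuation.map_add_eq_of_lt_right _ h1
  have hd0 : ∀ v : Pr F, v.valuation F d' ≠ 0 := fun v => (Valuation.ne_zero_iff _).2 hd'
  have hn0 : Nf d a b c ≠ 0 := by
    obtain ⟨v, hv⟩ := hne
    intro h0
    have h1 := hval v hv
    rw [h0, map_zero] at h1
    exact hd0 v h1.symm
  refine ⟨a, b, c, hn0, div_ne_zero hd' hn0, fun v hv => ?_, fun φ => (hreal φ).elim⟩
  have e : d' / Nf d a b c - 1 = -((Nf d a b c - d') / Nf d a b c) := by
    field_simp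
    ring
  rw [e, Valuation.map_neg, map_div₀, hval v hv]
  rw [div_lt_iff₀ (zero_lt_iff.2 (hd0 v))]
  exact hmain v hv

end Pool.Agent.H52OM
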