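import Pool.Agent.Lib.H52OM.Defs

/-!
# O07: the Kummer extension of degree 3

`L/F` with `δ ∈ L`, `δ³ = d`, `d` not a cube in `F`, degree 3, `w ∈ F` a primitive third root of unity.
-/

set_option autoImplicit false

open NumberField IsDedekindDomain WeierstrassCurve WeierstrassCurve.Affine
open Pool.Agent.H60.UDef CFT
open Pool.Agent.H60R (Fc va emb va_emb)
open scoped WithZero

namespace Pool.Agent.H52OM

theorem o07_irr {F : Type} [Field F] {d : F} (hd0 : d ≠ 0) (hd : ¬ CubE d 1) : Irreducible (Polynomial.X ^ 3 - Polynomial.C d : Polynomial F) := by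
  refine X_pow_sub_C_irreducible_of_prime Nat.prime_three fun b hb => hd ⟨b, ?_, ?_⟩
  · rintro rfl
    apply hd0
    rw [← hb]
    ring
  · rw [one_mul, hb]

theorem cub_exists {F : Type} [Field F] [NumberField F] {d : F} (hd0 : d ≠ 0) (hd : ¬ CubE d 1) :
    ∃ (L : Type) (_ : Field L) (_ : NumberField L) (_ : Algebra F L) (δ : L), δ ^ 3 = algebraMap F L d ∧ Module.finrank F L = 3 := by
  have hirr := o07_irr hd0 hd
  have hf : Fact (Irreducible (Polynomial.X ^ 3 - Polynomial.C d : Polynomial F)) := ⟨hirr⟩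
  have hdeg : (Polynomial.X ^ 3 - Polynomial.C d : Polynomial F).natDegree = 3 := Polynomial.natDegree_X_pow_sub_C
  have hfr : Module.finrank F (AdjoinRoot (Polynomial.X ^ 3 - Polynomial.C d : Polynomial F)) = 3 := by
    rw [(AdjoinRoot.powerBasis hirr.ne_zero).finrank, AdjoinRoot.powerBasis_dim, hdeg]
  have hfin : Module.Finite F (AdjoinRoot (Polynomial.X ^ 3 - Polynomial.C d : Polynomial F)) :=
    Module.finite_of_finrank_pos (by rw [hfr]; norm_num)
  have hnf : NumberField (AdjoinRoot (Polynomial.X ^ 3 - Polynomial.C d : Polynomial F)) :=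
    NumberField.of_module_finite F _
  refine ⟨AdjoinRoot (Polynomial.X ^ 3 - Polynomial.C d : Polynomial F), inferInstance, hnf, inferInstance,
    AdjoinRoot.root _, ?_, hfr⟩
  have h1 := AdjoinRoot.eval₂_root (Polynomial.X ^ 3 - Polynomial.C d : Polynomial F)
  rw [Polynomial.eval₂_sub, Polynomial.eval₂_pow, Polynomial.eval₂_X, Polynomial.eval₂_C] at h1
  exact sub_eq_zero.1 h1

section

variable {F : Type} [Field F] [NumberField F] {L : Type} [Field L] [NumberField L] [Algebra F L] {d : F} {δ : L} {w : F}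

theorem o07_prim (hw : w ^ 2 + w + 1 = 0) : IsPrimitiveRoot w 3 := by
  rw [IsPrimitiveRoot.iff_orderOf]
  have : Fact (Nat.Prime 3) := ⟨Nat.prime_three⟩
  refine orderOf_eq_prime (w_cube hw) ?_
  rintro rfl
  norm_num at hw

omit [NumberField F] [NumberField L] in
theorem o07_minpoly (hd0 : d ≠ 0) (hd : ¬ CubE d 1) (hδ : δ ^ 3 = algebraMap F L d) :
    minpoly F δ = Polynomial.X ^ 3 - Polynomial.C d := by
  symm
  refine minpoly.eq_of_irreducible_of_monic (o07_irr hd0 hd) ?_ (Polynomial.monic_X_pow_sub_C d (by norm_num))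
  simp [hδ]

omit [NumberField F] [NumberField L] in
theorem o07_deg (hd0 : d ≠ 0) (hd : ¬ CubE d 1) (hδ : δ ^ 3 = algebraMap F L d) : (minpoly F δ).natDegree = 3 := by
  rw [o07_minpoly hd0 hd hδ]
  exact Polynomial.natDegree_X_pow_sub_C

omit [NumberField F] [NumberField L] in
theorem o07_top (hd0 : d ≠ 0) (hd : ¬ CubE d 1) (hδ : δ ^ 3 = algebraMap F L d) (h3 : Module.finrank F L = 3) :
    IntermediateField.adjoin F {δ} = ⊤ := by
  have hfin : FiniteDimensional F L := Module.finite_of_finrank_pos (by rw [h3]; norm_num)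
  apply IntermediateField.eq_of_le_of_finrank_eq le_top
  rw [IntermediateField.adjoin.finrank (IsIntegral.of_finite F δ), o07_deg hd0 hd hδ, IntermediateField.finrank_top', h3]

omit [NumberField L] in
theorem o07_split (hw : w ^ 2 + w + 1 = 0) (hd0 : d ≠ 0) (hd : ¬ CubE d 1) (hδ : δ ^ 3 = algebraMap F L d) (h3 : Module.finrank F L = 3) :
    Polynomial.IsSplittingField F L (Polynomial.X ^ 3 - Polynomial.C d) := by
  have hfin : FiniteDimensional F L := Module.finite_of_finrank_pos (by rw [h3]; norm_num)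
  have h := isSplittingField_X_pow_sub_C_of_root_adjoin_eq_top (K := F) (L := L) (a := d) (α := δ)
    ⟨w, by rw [h3, mem_primitiveRoots (by norm_num)]; exact o07_prim hw⟩ (by rw [h3]; exact hδ) (o07_top hd0 hd hδ h3)
  rwa [h3] at h

theorem cub_galois (hw : w ^ 2 + w + 1 = 0) (hd0 : d ≠ 0) (hd : ¬ CubE d 1) (hδ : δ ^ 3 = algebraMap F L d) (h3 : Module.finrank F L = 3) : IsGalois F L := by
  have := o07_split hw hd0 hd hδ h3
  exact isGalois_of_isSplittingField_X_pow_sub_C ⟨w, by rw [mem_primitiveRoots (by norm_num)]; exact o07_prim hw⟩ (o07_irr hd0 hd) L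

theorem cub_chi (hw : w ^ 2 + w + 1 = 0) (hd0 : d ≠ 0) (hd : ¬ CubE d 1) (hδ : δ ^ 3 = algebraMap F L d) (h3 : Module.finrank F L = 3) :
    ∃ χ : (L ≃ₐ[F] L) →* Fˣ, Function.Injective χ ∧ (∀ s : L ≃ₐ[F] L, s δ = algebraMap F L (χ s : Fˣ) * δ) ∧ ∀ s : L ≃ₐ[F] L, χ s ^ 3 = 1 := by
  have := o07_split hw hd0 hd hδ h3
  have hζ : (primitiveRoots 3 F).Nonempty := ⟨w, by rw [mem_primitiveRoots (by norm_num)]; exact o07_prim hw⟩
  have H := o07_irr hd0 hd
  refine ⟨(rootsOfUnity 3 F).subtype.comp (autEquivRootsOfUnity hζ H L).toMonoidHom, ?_, ?_, ?_⟩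
  · exact Subtype.val_injective.comp (autEquivRootsOfUnity hζ H L).injective
  · intro s
    have h1 := autEquivRootsOfUnity_smul hζ H L hδ s
    rw [← h1, ← Algebra.smul_def]
    rfl
  · intro s
    exact (autEquivRootsOfUnity hζ H L s).2

theorem cub_norm (hd0 : d ≠ 0) (hd : ¬ CubE d 1) (hδ : δ ^ 3 = algebraMap F L d) (h3 : Module.finrank F L = 3) (A B C : F) :
    Algebra.norm F (algebraMap F L A + algebraMap F L B * δ + algebraMap F L C * δ ^ 2) = Nf d A B C := by
  classical
  have hfin : FiniteDimensional F L := Module.finite_of_finrank_pos (by rw [h3]; norm_num)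
  have hli0 := linearIndependent_pow (K := F) δ
  have hli : LinearIndependent F (fun i : Fin 3 => δ ^ (i : ℕ)) := by
    have h := hli0.comp (Fin.cast (o07_deg hd0 hd hδ).symm) (Fin.cast_injective _)
    exact h
  obtain ⟨b, hb⟩ : ∃ b : Module.Basis (Fin 3) F L, (b : Fin 3 → L) = fun i : Fin 3 => δ ^ (i : ℕ) :=
    ⟨basisOfLinearIndependentOfCardEqFinrank hli (by rw [h3]; simp),
      coe_basisOfLinearIndependentOfCardEqFinrank _ _⟩
  have hb0 : b 0 = 1 := by rw [hb]; simp
  have hb1 : b 1 = δ := by rw [hb]; simp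
  have hb2 : b 2 = δ ^ 2 := by rw [hb]; simp
  have e0 : (algebraMap F L A + algebraMap F L B * δ + algebraMap F L C * δ ^ 2) * b 0 = A • b 0 + B • b 1 + C • b 2 := by
    rw [hb0, hb1, hb2, Algebra.smul_def, Algebra.smul_def, Algebra.smul_def]
    ring
  have e1 : (algebraMap F L A + algebraMap F L B * δ + algebraMap F L C * δ ^ 2) * b 1 = (C * d) • b 0 + A • b 1 + B • b 2 := by
    rw [hb0, hb1, hb2, Algebra.smul_def, Algebra.smul_def, Algebra.smul_def, map_mul, ← hδ]
    ring
  have e2 : (algebraMap F L A + algebraMap F L B * δ + algebraMap F L C * δ ^ 2) * b 2 = (B * d) • b 0 + (C * d) • b 1 + A • b 2 := by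
    rw [hb0, hb1, hb2, Algebra.smul_def, Algebra.smul_def, Algebra.smul_def, map_mul, map_mul, ← hδ]
    ring
  rw [Algebra.norm_eq_matrix_det b, Matrix.det_fin_three]
  simp only [Algebra.leftMulMatrix_eq_repr_mul]
  rw [e0, e1, e2]
  simp only [map_add, map_smul, Module.Basis.repr_self, Finsupp.add_apply, Finsupp.smul_apply, smul_eq_mul]
  have s00 : (Finsupp.single (0 : Fin 3) (1 : F)) 0 = 1 := Finsupp.single_eq_same
  have s11 : (Finsupp.single (1 : Fin 3) (1 : F)) 1 = 1 := Finsupp.single_eq_same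
  have s22 : (Finsupp.single (2 : Fin 3) (1 : F)) 2 = 1 := Finsupp.single_eq_same
  have s01 : (Finsupp.single (0 : Fin 3) (1 : F)) 1 = 0 := Finsupp.single_eq_of_ne (by decide)
  have s02 : (Finsupp.single (0 : Fin 3) (1 : F)) 2 = 0 := Finsupp.single_eq_of_ne (by decide)
  have s10 : (Finsupp.single (1 : Fin 3) (1 : F)) 0 = 0 := Finsupp.single_eq_of_ne (by decide)
  have s12 : (Finsupp.single (1 : Fin 3) (1 : F)) 2 = 0 := Finsupp.single_eq_of_ne (by decide)
  have s20 : (Finsupp.single (2 : Fin 3) (1 : F)) 0 = 0 := Finsupp.single_eq_of_ne (by decide)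
  have s21 : (Finsupp.single (2 : Fin 3) (1 : F)) 1 = 0 := Finsupp.single_eq_of_ne (by decide)
  rw [s00, s11, s22, s01, s02, s10, s12, s20, s21]
  unfold Nf
  ring

theorem cub_ab (hw : w ^ 2 + w + 1 = 0) (hd0 : d ≠ 0) (hd : ¬ CubE d 1) (hδ : δ ^ 3 = algebraMap F L d) (h3 : Module.finrank F L = 3) (s t : L ≃ₐ[F] L) :
    s * t = t * s := by
  obtain ⟨χ, hχ, -, -⟩ := cub_chi hw hd0 hd hδ h3
  apply hχ
  rw [map_mul, map_mul, mul_comm]

end

end Pool.Agent.H52OM
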