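import Pool.Agent.Lib.H52OM.Defs
import Pool.Agent.Lib.CFT.B06
import Pool.Agent.Lib.CFT.B16
import Pool.Agent.Lib.CFT.B15
import Pool.Agent.Lib.CFT.B03
import Pool.Agent.Lib.H52OM.O07

/-!
# O08: `F(∛d)` is unramified at `v` if `v` does not divide 3 and the order of `d` at `v` is divisible by 3

`x = b t δ` is integral with `x³ = y ∈ 𝓞 F`, `y ∉ v`. If `s x - x ∈ w` with `s δ = z δ`, `z ≠ 1`, then `(z - 1) x ∈ w`, so `3 x ∈ w`
(`3 = (z - 1) (z² - 1)`) and `27 y ∈ v`.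
-/

set_option autoImplicit false

open NumberField IsDedekindDomain WeierstrassCurve WeierstrassCurve.Affine
open Pool.Agent.H60.UDef CFT
open Pool.Agent.H60R (Fc va emb va_emb)
open scoped WithZero

namespace Pool.Agent.H52OM

/-- An integral element close to `δ`. -/
theorem o08_int {F : Type} [Field F] [NumberField F] {L : Type} [Field L] [NumberField L] [Algebra F L] {d : F} {δ : L} (hd0 : d ≠ 0)
    (hδ : δ ^ 3 = algebraMap F L d) (v : Pr F) (he : (3 : ℤ) ∣ od v d) :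
    ∃ (r : F) (x : 𝓞 L) (y : 𝓞 F), r ≠ 0 ∧ (x : L) = algebraMap F L r * δ ∧ x ^ 3 = algebraMap (𝓞 F) (𝓞 L) y ∧ y ∉ v.asIdeal := by
  obtain ⟨m, hm⟩ := he
  obtain ⟨t, ht0, ht⟩ := b15_ex v (-m)
  have ht3 : t ^ 3 ≠ 0 := pow_ne_zero 3 ht0
  have hx0 : t ^ 3 * d ≠ 0 := mul_ne_zero ht3 hd0
  have hod : od v (t ^ 3 * d) = 0 := by
    rw [od_mul v ht3 hd0, od_pow v ht0, ht, hm]
    push_cast
    ring
  obtain ⟨a, b, hb0, hab, hbv⟩ := frac_prime {v} (x := t ^ 3 * d) (fun u hu => by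
    rw [Finset.mem_singleton] at hu
    rw [hu, hod])
  have hbv' : b ∉ v.asIdeal := hbv v (Finset.mem_singleton_self v)
  have hb' : (b : F) ≠ 0 := fun h => hb0 (RingOfIntegers.coe_eq_zero_iff.1 h)
  have ha0 : a ≠ 0 := by
    rintro rfl
    apply hx0
    rw [hab]
    simp
  have h2 : (a : F) = t ^ 3 * d * b := by
    rw [hab]
    field_simp
  -- b t δ is integral, its cube is b² a
  have hsq : (algebraMap F L (b * t) * δ) ^ 3 = algebraMap F L ((a * b ^ 2 : 𝓞 F) : F) := by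
    rw [mul_pow, hδ, ← map_pow, ← map_mul]
    congr 1
    have h1 : ((a * b ^ 2 : 𝓞 F) : F) = (a : F) * (b : F) ^ 2 := by
      show (algebraMap (𝓞 F) F) (a * b ^ 2) = (algebraMap (𝓞 F) F) a * (algebraMap (𝓞 F) F) b ^ 2
      rw [map_mul, map_pow]
    rw [h1, h2]
    ring
  have hint : IsIntegral ℤ (algebraMap F L (b * t) * δ) := by
    refine IsIntegral.of_pow (n := 3) (by norm_num) ?_
    rw [hsq]
    exact (RingOfIntegers.isIntegral_coe (a * b ^ 2)).algebraMap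
  have hav : a ∉ v.asIdeal := by
    intro h
    have h1 := (od_pos_iff v ha0).2 h
    have h4 : od v (b : F) = 0 := by
      refine le_antisymm (not_lt.1 fun h3 => hbv' ((od_pos_iff v hb0).1 h3)) (od_nonneg v b)
    rw [h2, od_mul v hx0 hb', hod, h4] at h1
    exact absurd h1 (by norm_num)
  obtain ⟨x, hx⟩ : ∃ x : 𝓞 L, (x : L) = algebraMap F L (b * t) * δ := ⟨⟨algebraMap F L (b * t) * δ, hint⟩, rfl⟩
  refine ⟨b * t, x, a * b ^ 2, mul_ne_zero hb' ht0, hx, ?_, fun h => ?_⟩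
  · apply RingOfIntegers.ext
    show (x : L) ^ 3 = algebraMap F L ((a * b ^ 2 : 𝓞 F) : F)
    rw [hx]
    exact hsq
  · rcases v.isPrime.mem_or_mem h with h | h
    · exact hav h
    · exact hbv' (v.isPrime.mem_of_pow_mem 2 h)

/-- The integral third root of unity by which an element of the Galois group different from 1 acts on `δ`. -/
theorem o08_root {F : Type} [Field F] [NumberField F] {L : Type} [Field L] [NumberField L] [Algebra F L] {d : F} {δ : L} {w : F}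
    (hw : w ^ 2 + w + 1 = 0) (hd0 : d ≠ 0) (hd : ¬ CubE d 1) (hδ : δ ^ 3 = algebraMap F L d) (h3 : Module.finrank F L = 3)
    {s : L ≃ₐ[F] L} (hs : s ≠ 1) : ∃ Z : 𝓞 F, Z ^ 2 + Z + 1 = 0 ∧ s δ = algebraMap F L (Z : F) * δ := by
  obtain ⟨χ, hχ, hχs, hχ3⟩ := cub_chi hw hd0 hd hδ h3
  have h1 : ((χ s : Fˣ) : F) ^ 3 = 1 := by
    have := congrArg (fun u : Fˣ => (u : F)) (hχ3 s)
    simpa using this
  have hne : ((χ s : Fˣ) : F) ≠ 1 := by
    intro h
    apply hs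
    apply hχ
    rw [map_one]
    exact Units.ext h
  have hint : IsIntegral ℤ ((χ s : Fˣ) : F) := by
    refine IsIntegral.of_pow (n := 3) (by norm_num) ?_
    rw [h1]
    exact isIntegral_one
  obtain ⟨Z, hZ⟩ : ∃ Z : 𝓞 F, (Z : F) = ((χ s : Fˣ) : F) := ⟨⟨_, hint⟩, rfl⟩
  refine ⟨Z, ?_, by rw [hZ]; exact hχs s⟩
  apply RingOfIntegers.ext
  show (Z : F) ^ 2 + (Z : F) + 1 = 0
  rw [hZ]
  have h4 : (((χ s : Fˣ) : F) - 1) * (((χ s : Fˣ) : F) ^ 2 + ((χ s : Fˣ) : F) + 1) = 0 := by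
    linear_combination h1
  rcases mul_eq_zero.1 h4 with h | h
  · exact absurd (sub_eq_zero.1 h) hne
  · exact h

theorem cub_unr {F : Type} [Field F] [NumberField F] {L : Type} [Field L] [NumberField L] [Algebra F L] {d : F} {δ : L} {w : F}
    (hw : w ^ 2 + w + 1 = 0) (hd0 : d ≠ 0) (hd : ¬ CubE d 1) (hδ : δ ^ 3 = algebraMap F L d) (h3 : Module.finrank F L = 3)
    (v : Pr F) (hv3 : (3 : 𝓞 F) ∉ v.asIdeal) (he : (3 : ℤ) ∣ od v d) : Unr F L v := by
  have hgal : IsGalois F L := cub_galois hw hd0 hd hδ h3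
  intro u hu
  refine unr_of_inertia u fun s hs => ?_
  by_contra hne
  obtain ⟨Z, hZ, hsZ⟩ := o08_root hw hd0 hd hδ h3 hne
  obtain ⟨r, x, y, hr, hx, hxy, hy⟩ := o08_int hd0 hδ v he
  have h4 := hs x
  have h5 : s • x - x = (algebraMap (𝓞 F) (𝓞 L) Z - 1) * x := by
    apply RingOfIntegers.ext
    have h6 : s (x : L) = algebraMap F L (Z : F) * (x : L) := by
      rw [hx, map_mul, hsZ, AlgEquiv.commutes]
      ring
    show s (x : L) - (x : L) = (algebraMap F L (Z : F) - 1) * (x : L)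
    rw [h6]
    ring
  rw [h5] at h4
  have h7 : 3 * x ∈ u.asIdeal := by
    have h8 := u.asIdeal.mul_mem_left (algebraMap (𝓞 F) (𝓞 L) Z ^ 2 - 1) h4
    have h9 : (algebraMap (𝓞 F) (𝓞 L) Z) ^ 2 + algebraMap (𝓞 F) (𝓞 L) Z + 1 = 0 := by
      rw [← map_pow, ← map_add, ← map_one (algebraMap (𝓞 F) (𝓞 L)), ← map_add, hZ, map_zero]
    have h10 : (algebraMap (𝓞 F) (𝓞 L) Z ^ 2 - 1) * ((algebraMap (𝓞 F) (𝓞 L) Z - 1) * x) = 3 * x := by
      linear_combination ((algebraMap (𝓞 F) (𝓞 L) Z - 2) * x) * h9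
    rwa [h10] at h8
  have h11 : algebraMap (𝓞 F) (𝓞 L) (3 ^ 3 * y) ∈ u.asIdeal := by
    have h12 := u.asIdeal.pow_mem_of_mem h7 3 (by norm_num)
    rwa [mul_pow, hxy, ← map_ofNat (algebraMap (𝓞 F) (𝓞 L)) 3, ← map_pow, ← map_mul] at h12
  have h13 : 3 ^ 3 * y ∈ v.asIdeal := by
    rw [← hu]
    exact h11
  rcases v.isPrime.mem_or_mem h13 with h | h
  · exact hv3 (v.isPrime.mem_of_pow_mem 3 h)
  · exact hy h

end Pool.Agent.H52OM
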