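import Pool.Agent.Lib.H52OM.Defs
import Pool.Agent.Lib.CFT.B06
import Pool.Agent.Lib.CFT.B17
import Pool.Agent.Lib.CFT.B03
import Pool.Agent.Lib.H60R.D04
import Pool.Agent.Lib.H52OM.O07
import Pool.Agent.Lib.H52OM.O08

/-!
# O09: if Frobenius at `v` is not trivial, `d` is not a cube in the completion

Suppose it is. With `x³ = y` (O08) there are `a, b ∉ v` with `y b³ - a³ ∈ v`, so `(x B)³ - A³ ∈ w`, and `x B - C ∈ w` with `C = Z^i A`, where
`g x = Z x`, `g = frob`. `g` preserves `w`, so `Z x B - C ∈ w`, `(Z - 1) C ∈ w`, `3 C ∈ w`, `3 A ∈ w`, `3 a ∈ v`.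
-/

set_option autoImplicit false

open NumberField IsDedekindDomain WeierstrassCurve WeierstrassCurve.Affine
open Pool.Agent.H60.UDef CFT
open Pool.Agent.H60R (Fc va emb va_emb dense)
open scoped WithZero

namespace Pool.Agent.H52OM

/-- A cube root modulo `v`. -/
theorem o09_root {F : Type} [Field F] [NumberField F] (v : Pr F) {y : 𝓞 F} (hy : y ∉ v.asIdeal) {s : Fc F v} (hs : s ^ 3 = emb v (y : F)) :
    ∃ a b : 𝓞 F, a ∉ v.asIdeal ∧ b ∉ v.asIdeal ∧ y * b ^ 3 - a ^ 3 ∈ v.asIdeal := by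
  have hvy : va v (emb v (y : F)) = 1 := by
    rw [va_emb]
    refine le_antisymm (v.valuation_le_one _) (not_lt.1 fun h5 => hy ?_)
    exact (HeightOneSpectrum.valuation_lt_one_iff_mem (K := F) v y).1 h5
  have hvs : va v s = 1 := by
    have h1 : va v s ^ 3 = 1 := by rw [← map_pow, hs, hvy]
    exact (pow_eq_one_iff_of_nonneg zero_le three_ne_zero).1 h1
  obtain ⟨b, hb⟩ := dense v s 0
  rw [Nat.cast_zero, neg_zero, WithZero.exp_zero] at hb
  have hvb : va v (emb v b) = 1 := by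
    have h1 : emb v b = s - (s - emb v b) := by ring
    rw [h1, Valuation.map_sub_eq_of_lt_left _ (by rw [hvs]; exact hb), hvs]
  have hb0 : b ≠ 0 := by
    rintro rfl
    rw [map_zero, map_zero] at hvb
    exact zero_ne_one hvb
  have hod : od v b = 0 := by
    unfold od
    rw [← va_emb, hvb, WithZero.log_one, neg_zero]
  obtain ⟨b1, b2, hb2, hb12, hbv⟩ := frac_prime {v} (x := b) (fun u hu => by
    rw [Finset.mem_singleton] at hu
    rw [hu, hod])
  have hb2' : (b2 : F) ≠ 0 := fun h => hb2 (RingOfIntegers.coe_eq_zero_iff.1 h)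
  have hb1 : (b1 : F) = b * b2 := by
    rw [hb12]
    field_simp
  have hmem : y * b2 ^ 3 - b1 ^ 3 ∈ v.asIdeal := by
    refine (HeightOneSpectrum.valuation_lt_one_iff_mem (K := F) v (y * b2 ^ 3 - b1 ^ 3)).1 ?_
    show v.valuation F ((y * b2 ^ 3 - b1 ^ 3 : 𝓞 F) : F) < 1
    have e : ((y * b2 ^ 3 - b1 ^ 3 : 𝓞 F) : F) = (b2 : F) ^ 3 * ((y : F) - b ^ 3) := by
      show (y : F) * (b2 : F) ^ 3 - (b1 : F) ^ 3 = _
      rw [hb1]
      ring
    rw [e, map_mul, map_pow]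
    have h1 : v.valuation F ((y : F) - b ^ 3) < 1 := by
      rw [← va_emb, map_sub, map_pow, ← hs]
      have h2 : s ^ 3 - emb v b ^ 3 = (s - emb v b) * (s ^ 2 + s * emb v b + emb v b ^ 2) := by ring
      rw [h2, map_mul]
      have h3 : va v (s ^ 2 + s * emb v b + emb v b ^ 2) ≤ 1 := by
        refine Valuation.map_add_le _ (Valuation.map_add_le _ ?_ ?_) ?_
        · rw [map_pow, hvs, one_pow]
        · rw [map_mul, hvs, hvb, one_mul]
        · rw [map_pow, hvb, one_pow]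
      calc va v (s - emb v b) * va v (s ^ 2 + s * emb v b + emb v b ^ 2) ≤ va v (s - emb v b) * 1 := mul_le_mul_right h3 _
        _ = va v (s - emb v b) := mul_one _
        _ < 1 := hb
    have h4 : v.valuation F (b2 : F) ^ 3 ≤ 1 := pow_le_one' (v.valuation_le_one b2) 3
    calc v.valuation F (b2 : F) ^ 3 * v.valuation F ((y : F) - b ^ 3) ≤ 1 * v.valuation F ((y : F) - b ^ 3) := mul_le_mul_left h4 _
      _ = v.valuation F ((y : F) - b ^ 3) := one_mul _
      _ < 1 := h1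
  have hb2v := hbv v (Finset.mem_singleton_self v)
  refine ⟨b1, b2, fun h => ?_, hb2v, hmem⟩
  have h5 : y * b2 ^ 3 ∈ v.asIdeal := by
    have h6 : y * b2 ^ 3 = (y * b2 ^ 3 - b1 ^ 3) + b1 ^ 2 * b1 := by ring
    rw [h6]
    exact v.asIdeal.add_mem hmem (v.asIdeal.mul_mem_left _ h)
  rcases v.isPrime.mem_or_mem h5 with h | h
  · exact hy h
  · exact hb2v (v.isPrime.mem_of_pow_mem 3 h)

theorem not_cube {F : Type} [Field F] [NumberField F] {L : Type} [Field L] [NumberField L] [Algebra F L] {d : F} {δ : L} {w : F}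
    (hw : w ^ 2 + w + 1 = 0) (hd0 : d ≠ 0) (hd : ¬ CubE d 1) (hδ : δ ^ 3 = algebraMap F L d) (h3 : Module.finrank F L = 3)
    (v : Pr F) (hv3 : (3 : 𝓞 F) ∉ v.asIdeal) (hu : Unr F L v) (hfr : frob F L v ≠ 1) : ¬ CubE (emb v d) 1 := by
  rintro ⟨s, hs0, hs⟩
  rw [one_mul] at hs
  have hgal : IsGalois F L := cub_galois hw hd0 hd hδ h3
  have hev : (3 : ℤ) ∣ od v d := by
    have h1 : va v s ^ 3 = WithZero.exp (-od v d) := by rw [← map_pow, ← hs, va_emb, val_eq v hd0]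
    have h4 := congrArg WithZero.log h1
    rw [WithZero.log_pow, WithZero.log_exp, nsmul_eq_mul] at h4
    refine ⟨-WithZero.log (va v s), ?_⟩
    push_cast at h4
    omega
  obtain ⟨r, x, y, hr, hx, hxy, hy⟩ := o08_int hd0 hδ v hev
  have hyF : (y : F) = r ^ 3 * d := by
    have h1 : (x : L) ^ 3 = algebraMap F L (y : F) := congrArg (fun z : 𝓞 L => (z : L)) hxy
    rw [hx, mul_pow, hδ, ← map_pow, ← map_mul] at h1
    exact ((algebraMap F L).injective h1).symm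
  obtain ⟨a, b, ha, hb, hab⟩ := o09_root v hy (s := emb v r * s) (by
    rw [hyF, map_mul, map_pow, hs]
    ring)
  obtain ⟨u, hu'⟩ := below_surj (K := F) (L := L) v
  have hmem : ∀ z : 𝓞 F, algebraMap (𝓞 F) (𝓞 L) z ∈ u.asIdeal ↔ z ∈ v.asIdeal := by
    intro z
    rw [← hu']
    rfl
  obtain ⟨g, hg⟩ : ∃ g : L ≃ₐ[F] L, g = frob F L v := ⟨_, rfl⟩
  have hgs := frob_spec (cub_ab hw hd0 hd hδ h3) hu u hu'
  rw [← hg] at hgs hfr
  have hgw : ∀ z : 𝓞 L, z ∈ u.asIdeal → g • z ∈ u.asIdeal := by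
    intro z hz
    have h1 := hgs z
    have h4 : z ^ Nm v ∈ u.asIdeal := u.asIdeal.pow_mem_of_mem hz _ (Nm_pos v)
    have h5 := u.asIdeal.add_mem h1 h4
    rwa [sub_add_cancel] at h5
  obtain ⟨Z, hZ, hsZ⟩ := o08_root hw hd0 hd hδ h3 hfr
  obtain ⟨ZL, hZL⟩ : ∃ ZL : 𝓞 L, ZL = algebraMap (𝓞 F) (𝓞 L) Z := ⟨_, rfl⟩
  have hZL2 : ZL ^ 2 + ZL + 1 = 0 := by
    rw [hZL, ← map_pow, ← map_add, ← map_one (algebraMap (𝓞 F) (𝓞 L)), ← map_add, hZ, map_zero]
  have hgx : g • x = ZL * x := by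
    apply RingOfIntegers.ext
    have h6 : g (x : L) = algebraMap F L (Z : F) * (x : L) := by
      rw [hx, map_mul, hsZ, AlgEquiv.commutes]
      ring
    rw [hZL]
    exact h6
  have hgF : ∀ z : 𝓞 F, g • (algebraMap (𝓞 F) (𝓞 L) z) = algebraMap (𝓞 F) (𝓞 L) z := by
    intro z
    apply RingOfIntegers.ext
    exact AlgEquiv.commutes g (z : F)
  obtain ⟨A, hA⟩ : ∃ A : 𝓞 L, A = algebraMap (𝓞 F) (𝓞 L) a := ⟨_, rfl⟩
  obtain ⟨B, hB⟩ : ∃ B : 𝓞 L, B = algebraMap (𝓞 F) (𝓞 L) b := ⟨_, rfl⟩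
  have hgA : g • A = A := by rw [hA, hgF]
  have hgB : g • B = B := by rw [hB, hgF]
  have hgZ : g • ZL = ZL := by rw [hZL, hgF]
  have hfin : ∀ C : 𝓞 L, g • C = C → x * B - C ∈ u.asIdeal → 3 * C ∈ u.asIdeal := by
    intro C hC h
    have h1 := hgw _ h
    rw [smul_sub, smul_mul', hgx, hC, hgB] at h1
    have h4 := u.asIdeal.sub_mem (u.asIdeal.mul_mem_left ZL h) h1
    have h5 := u.asIdeal.mul_mem_left (1 - ZL ^ 2) h4
    have h6 : (1 - ZL ^ 2) * (ZL * (x * B - C) - (ZL * x * B - C)) = 3 * C := by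
      linear_combination ((ZL - 2) * C) * hZL2
    rwa [h6] at h5
  have hprod : (x * B - A) * ((x * B - ZL * A) * (x * B - ZL ^ 2 * A)) ∈ u.asIdeal := by
    have h1 : (x * B - A) * ((x * B - ZL * A) * (x * B - ZL ^ 2 * A)) = algebraMap (𝓞 F) (𝓞 L) (y * b ^ 3 - a ^ 3) := by
      rw [map_sub, map_mul, map_pow, map_pow, ← hxy, ← hA, ← hB]
      linear_combination (-(x * B) ^ 2 * A + (x * B) * A ^ 2 * ZL - A ^ 3 * (ZL - 1)) * hZL2
    rw [h1, hmem]
    exact hab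
  have h3A : 3 * A ∈ u.asIdeal := by
    rcases u.isPrime.mem_or_mem hprod with h | h
    · exact hfin A hgA h
    · rcases u.isPrime.mem_or_mem h with h | h
      · have h1 := hfin (ZL * A) (by rw [smul_mul', hgZ, hgA]) h
        have h4 := u.asIdeal.mul_mem_left (ZL ^ 2) h1
        have h5 : ZL ^ 2 * (3 * (ZL * A)) = 3 * A := by
          linear_combination (3 * A * (ZL - 1)) * hZL2
        rwa [h5] at h4
      · have h1 := hfin (ZL ^ 2 * A) (by rw [smul_mul', smul_pow', hgZ, hgA]) h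
        have h4 := u.asIdeal.mul_mem_left ZL h1
        have h5 : ZL * (3 * (ZL ^ 2 * A)) = 3 * A := by
          linear_combination (3 * A * (ZL - 1)) * hZL2
        rwa [h5] at h4
  have h5 : 3 * a ∈ v.asIdeal := by
    rw [← hmem, map_mul, map_ofNat, ← hA]
    exact h3A
  rcases v.isPrime.mem_or_mem h5 with h | h
  · exact hv3 h
  · exact ha h

end Pool.Agent.H52OM
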