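import Pool.Agent.Lib.H52OM.Defs
import Pool.Agent.Lib.CFT.B07
import Pool.Agent.Lib.CFT.B18
import Pool.Agent.Lib.CFT.Core
import Pool.Agent.Lib.H52OM.O06
import Pool.Agent.Lib.H52OM.O07
import Pool.Agent.Lib.H52OM.O08

/-!
# O10: RECIPROCITY. If `d'` is a local norm from `F(∛d)` at all places of `S`, its Artin symbol outside `S` is trivial.
-/

set_option autoImplicit false

open NumberField IsDedekindDomain WeierstrassCurve WeierstrassCurve.Affine
open Pool.Agent.H60.UDef CFT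
open Pool.Agent.H60R (Fc va emb va_emb)
open scoped WithZero

namespace Pool.Agent.H52OM

theorem recip {F : Type} [Field F] [NumberField F] {L : Type} [Field L] [NumberField L] [Algebra F L] {d : F} {δ : L} {w : F}
    (hw : w ^ 2 + w + 1 = 0) (hreal : ∀ φ : F →+* ℝ, False) (hd : ¬ CubE d 1) (hδ : δ ^ 3 = algebraMap F L d) (h3 : Module.finrank F L = 3)
    (S : Finset (Pr F)) (hS3 : Ab3 S) (hLS : LS S d) {d' : F} (hd' : d' ≠ 0)
    (h : ∀ v ∈ S, ∃ A B C : Fc F v, emb v d' = Nf (emb v d) A B C) {A : Type} [CommGroup A] (χ : (L ≃ₐ[F] L) →* A) :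
    art S χ (dv d') = 0 := by
  have hgal : IsGalois F L := cub_galois hw hLS.1 hd hδ h3
  have hS : ∀ v : Pr F, ¬ Unr F L v → v ∈ S := by
    intro v hv
    by_contra hvS
    exact hv (cub_unr hw hLS.1 hd hδ h3 v (fun h => hvS (hS3 v h)) (hLS.2 v hvS))
  obtain ⟨N, hN⟩ := artin F L (cub_ab hw hLS.1 hd hδ h3) S hS
  obtain ⟨a, b, c, hn, hR⟩ := norm_approx hreal S N hd' h
  have hz : Algebra.norm F (algebraMap F L a + algebraMap F L b * δ + algebraMap F L c * δ ^ 2) = Nf d a b c :=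
    cub_norm hLS.1 hd hδ h3 a b c
  have hz0 : algebraMap F L a + algebraMap F L b * δ + algebraMap F L c * δ ^ 2 ≠ 0 := by
    intro h0
    have hfin : Module.Finite F L := Module.finite_of_finrank_pos (by rw [h3]; norm_num)
    rw [h0, Algebra.norm_zero] at hz
    exact hn hz.symm
  have e : d' = d' / Nf d a b c * Nf d a b c := (div_mul_cancel₀ _ hn).symm
  rw [e, dv_mul (div_ne_zero hd' hn) hn, map_add, hN A χ _ hR, zero_add, ← hz, ← Nd_dv hz0]
  exact art_Nd (cub_ab hw hLS.1 hd hδ h3) S hS χ _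

end Pool.Agent.H52OM
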