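import Pool.Agent.Lib.H52OM.Defs
import Pool.Agent.Lib.H52OM.O07

/-!
# O11: the Artin symbol modulo 3
-/

set_option autoImplicit false

open NumberField IsDedekindDomain WeierstrassCurve WeierstrassCurve.Affine
open Pool.Agent.H60.UDef CFT
open Pool.Agent.H60R (Fc va emb va_emb)
open scoped WithZero

namespace Pool.Agent.H52OM

theorem o11_zero {A : Type} [AddCommGroup A] {a : A} (ha : (3 : ℤ) • a = 0) {n : ℤ} (hn : (3 : ℤ) ∣ n) : n • a = 0 := by
  obtain ⟨m, rfl⟩ := hn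
  rw [mul_comm, mul_smul, ha, smul_zero]

theorem o11_ne {A : Type} [AddCommGroup A] {a : A} (ha : (3 : ℤ) • a = 0) {n : ℤ} (hn : ¬ (3 : ℤ) ∣ n) (h : n • a = 0) : a = 0 := by
  have hg : Int.gcd n 3 = 1 := by
    have h1 : IsCoprime (3 : ℤ) n := (Int.prime_three.coprime_iff_not_dvd).2 hn
    exact Int.isCoprime_iff_gcd_eq_one.1 h1.symm
  have hb := Int.gcd_eq_gcd_ab n 3
  rw [hg] at hb
  calc a = (1 : ℤ) • a := (one_smul ℤ a).symm
    _ = (n * Int.gcdA n 3 + 3 * Int.gcdB n 3) • a := by rw [← hb]; rfl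
    _ = 0 := by rw [add_smul, mul_comm n, mul_comm (3 : ℤ), mul_smul, mul_smul, h, ha, smul_zero, smul_zero, add_zero]

theorem art_ne {F : Type} [Field F] [NumberField F] {L : Type} [Field L] [NumberField L] [Algebra F L] (χ : (L ≃ₐ[F] L) →* Fˣ)
    (hχ : Function.Injective χ) (hχ3 : ∀ s : L ≃ₐ[F] L, χ s ^ 3 = 1) (S : Finset (Pr F)) {d' : F} {q : Pr F} (hq : q ∉ S)
    (hfr : frob F L q ≠ 1) (hodd : ¬ (3 : ℤ) ∣ od q d') (hev : ∀ v : Pr F, v ∉ S → v ≠ q → (3 : ℤ) ∣ od v d') :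
    art S χ (dv d') ≠ 0 := by
  classical
  have h3 : ∀ s : L ≃ₐ[F] L, (3 : ℤ) • Additive.ofMul (χ s) = 0 := by
    intro s
    have h := hχ3 s
    show Additive.ofMul (χ s ^ (3 : ℤ)) = 0
    have e : χ s ^ (3 : ℤ) = χ s ^ 3 := by norm_cast
    rw [e, h]
    rfl
  have h1 : art S χ (dv d') = od q d' • Additive.ofMul (χ (frob F L q)) := by
    unfold art
    rw [Finsupp.liftAddHom_apply, Finsupp.sum, Finset.sum_eq_single q]
    · rw [zmultiplesHom_apply, dv_apply, if_neg hq]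
    · intro v _ hv
      rw [zmultiplesHom_apply, dv_apply]
      by_cases hS : v ∈ S
      · rw [if_pos hS, smul_zero]
      · rw [if_neg hS, o11_zero (h3 _) (hev v hS hv)]
    · intro h
      exfalso
      rw [Finsupp.notMem_support_iff, dv_apply] at h
      rw [h] at hodd
      exact hodd (dvd_zero 3)
  rw [h1]
  intro h
  apply hfr
  apply hχ
  rw [map_one]
  exact o11_ne (h3 _) hodd h

end Pool.Agent.H52OM
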