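import Pool.Agent.Lib.H52OM.Defs
import Pool.Agent.Lib.CFT.B15
import Pool.Agent.Lib.CFT.B19
import Pool.Agent.Lib.CFT.Core
import Pool.Agent.Lib.H52OM.O02
import Pool.Agent.Lib.H52OM.O05
import Pool.Agent.Lib.H52OM.O07
import Pool.Agent.Lib.H52OM.O08
import Pool.Agent.Lib.H52OM.O09
import Pool.Agent.Lib.H52OM.O10
import Pool.Agent.Lib.H52OM.O11

/-!
# O12: THE KILLING STEP
-/

set_option autoImplicit false

open NumberField IsDedekindDomain WeierstrassCurve WeierstrassCurve.Affine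
open Pool.Agent.H60.UDef CFT
open Pool.Agent.H60R (Fc va emb va_emb)
open scoped WithZero

namespace Pool.Agent.H52OM

theorem o12_frob {F : Type} [Field F] [NumberField F] {L : Type} [Field L] [NumberField L] [Algebra F L] [IsGalois F L]
    (hab : ∀ s t : L ≃ₐ[F] L, s * t = t * s) (h3 : Module.finrank F L = 3) (S : Finset (Pr F)) :
    ∃ q : Pr F, q ∉ S ∧ Unr F L q ∧ frob F L q ≠ 1 := by
  by_contra hcon
  push Not at hcon
  have h1 := frob_gen F L hab S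
  have h2 : Subgroup.closure {s : L ≃ₐ[F] L | ∃ v : Pr F, v ∉ S ∧ Unr F L v ∧ frob F L v = s} = ⊥ := by
    rw [Subgroup.closure_eq_bot_iff]
    rintro s ⟨v, hv, hu, rfl⟩
    exact hcon v hv hu
  rw [h2] at h1
  have h4 : Nat.card (L ≃ₐ[F] L) = 1 := by
    rw [← Subgroup.card_top, ← h1, Subgroup.card_bot]
  rw [IsGalois.card_aut_eq_finrank, h3] at h4
  exact absurd h4 (by norm_num)

open Classical in
theorem kill {F : Type} [Field F] [NumberField F] {w : F} (hw : w ^ 2 + w + 1 = 0) (hreal : ∀ φ : F →+* ℝ, False) (S : Finset (Pr F)) (hS3 : Ab3 S)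
    (κ : Pr F → F) (hκ : ∀ v, κ v ≠ 0) {d : F} (hLS : LS S d) (hW : ∀ v ∈ S, Wl v (κ v) d) (hd : ¬ CubE d 1) :
    ∃ (q : Pr F) (ϖ : F), q ∉ S ∧ ϖ ≠ 0 ∧ ¬ Wl q ϖ d ∧
      ∀ d' : F, LS (insert q S) d' → (∀ v ∈ insert q S, Wl v (Function.update κ q ϖ v) d') → LS S d' := by
  obtain ⟨L, iL1, iL2, iL3, δ, hδ, h3⟩ := cub_exists hLS.1 hd
  obtain ⟨χ, hχ, -, hχ3⟩ := cub_chi hw hLS.1 hd hδ h3
  have hgal : IsGalois F L := cub_galois hw hLS.1 hd hδ h3
  obtain ⟨q, hq, hu, hfr⟩ := o12_frob (cub_ab hw hLS.1 hd hδ h3) h3 S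
  have hq3 : (3 : 𝓞 F) ∉ q.asIdeal := fun h => hq (hS3 q h)
  obtain ⟨ϖ, hϖ, hϖ1⟩ := b15_ex q 1
  refine ⟨q, ϖ, hq, hϖ, ?_, ?_⟩
  · intro h
    have hodd : ¬ (3 : ℤ) ∣ od q ϖ := by
      rw [hϖ1]
      norm_num
    exact not_cube hw hLS.1 hd hδ h3 q hq3 hu hfr (wl_cub q hq3 hodd hLS.1 (hLS.2 q hq) h)
  · intro d' hd' hw'
    refine ⟨hd'.1, fun v hv => ?_⟩
    by_cases hvq : v = q
    · subst hvq
      by_contra hodd
      have h1 : ∀ u ∈ S, ∃ A B C : Fc F u, emb u d' = Nf (emb u d) A B C := by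
        intro u hu'
        have h3 := hw' u (Finset.mem_insert_of_mem hu')
        have hne' : u ≠ v := fun h => hv (h ▸ hu')
        rw [Function.update_of_ne hne'] at h3
        exact wl_iso u (hκ u) h3 (hW u hu')
      have h4 := recip hw hreal hd hδ h3 S hS3 hLS hd'.1 h1 χ
      refine art_ne χ hχ hχ3 S hv hfr hodd (fun u hu1 hu2 => hd'.2 u ?_) h4
      rw [Finset.mem_insert, not_or]
      exact ⟨hu2, hu1⟩
    · refine hd'.2 v ?_
      rw [Finset.mem_insert, not_or]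
      exact ⟨hvq, hv⟩

end Pool.Agent.H52OM
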