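import Pool.Agent.Lib.H52OM.Defs
import Pool.Agent.Lib.CFT.B04
import Pool.Agent.Lib.CFT.B02
import Pool.Agent.Lib.CFT.ZF

/-!
# O13 (M): finiteness of the group of classes modulo cubes with order divisible by 3 outside `S`. Copy of D13 of H60R with cubes instead of squares.
-/

set_option autoImplicit false

open NumberField IsDedekindDomain WeierstrassCurve WeierstrassCurve.Affine
open Pool.Agent.H60.UDef CFT
open Pool.Agent.H60R (Fc va emb va_emb)
open scoped WithZero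

namespace Pool.Agent.H52OM

/-- Units modulo cubes. -/
theorem o13_units (F : Type) [Field F] [NumberField F] :
    ∃ U : Finset F, ∀ u : (𝓞 F)ˣ, ∃ w ∈ U, CubE (((u : 𝓞 F) : F)) w := by
  classical
  have : Fintype (Units.torsion F) := Fintype.ofFinite _
  refine ⟨Finset.univ.image (fun p : Units.torsion F × (Fin (Units.rank F) → Fin 3) =>
    ((((p.1 : (𝓞 F)ˣ) * ∏ i, (Units.fundSystem F i) ^ ((p.2 i : ℕ)) : (𝓞 F)ˣ) : 𝓞 F) : F)), fun u => ?_⟩
  obtain ⟨⟨ζ, e⟩, he, -⟩ := Units.exist_unique_eq_mul_prod F u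
  have he' : u = (ζ : (𝓞 F)ˣ) * ∏ i, (Units.fundSystem F i) ^ (e i) := he
  refine ⟨_, Finset.mem_image_of_mem _ (Finset.mem_univ (ζ, fun i => ⟨((e i) % 3).toNat, by omega⟩)), ?_⟩
  obtain ⟨s, hs⟩ : ∃ s : (𝓞 F)ˣ, s = ∏ i, (Units.fundSystem F i) ^ (e i / 3) := ⟨_, rfl⟩
  have hu : u = ((ζ : (𝓞 F)ˣ) * ∏ i, (Units.fundSystem F i) ^ (((e i) % 3).toNat)) * s ^ 3 := by
    rw [he', hs, ← Finset.prod_pow, mul_assoc, ← Finset.prod_mul_distrib]
    congr 1
    refine Finset.prod_congr rfl fun i _ => ?_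
    rw [← zpow_natCast, ← zpow_natCast, ← zpow_mul, ← zpow_add]
    congr 1
    have := Int.toNat_of_nonneg (show 0 ≤ e i % 3 by omega)
    rw [this]
    push_cast
    omega
  refine ⟨((s : 𝓞 F) : F), ?_, ?_⟩
  · intro h0
    have h1 : ((s : 𝓞 F)) = 0 := RingOfIntegers.coe_eq_zero_iff.1 h0
    exact s.ne_zero h1
  · conv_lhs => rw [hu]
    rw [Units.val_mul, Units.val_pow_eq_pow_val]
    push_cast
    rfl

theorem o13_dv_mul {F : Type} [Field F] [NumberField F] {x y : F} (hx : x ≠ 0) (hy : y ≠ 0) :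
    dv (x * y) = dv x + dv y := by
  ext v
  rw [Finsupp.add_apply]
  exact od_mul v hx hy

theorem ls_fin {F : Type} [Field F] [NumberField F] (S : Finset (Pr F)) :
    ∃ R : Finset F, ∀ d : F, LS S d → ∃ r ∈ R, CubE d r := by
  classical
  obtain ⟨U, hU⟩ := o13_units F
  -- the halved divisor
  obtain ⟨E, hE⟩ : ∃ E : F → Dv F, ∀ d v, E d v = od v d / 3 :=
    ⟨fun d => (dv d).mapRange (fun n => n / 3) (by norm_num), fun d v => by
      rw [Finsupp.mapRange_apply]; rfl⟩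
  -- the invariant
  obtain ⟨Φ, hΦ⟩ : ∃ Φ : F → (S → Fin 3) × Additive (ClassGroup (𝓞 F)), ∀ d, Φ d =
      (fun v => ⟨(od v.1 d % 3).toNat, by omega⟩, CFTZ.cl (E d)) := ⟨_, fun _ => rfl⟩
  have key : ∀ d d' : F, LS S d → LS S d' → Φ d = Φ d' → ∃ w ∈ U, CubE d (d' * w) := by
    intro d d' hd hd' h
    rw [hΦ, hΦ, Prod.mk.injEq] at h
    obtain ⟨h1, h2⟩ := h
    have h3 : CFTZ.cl (E d - E d') = 0 := by rw [map_sub, h2, sub_self]
    obtain ⟨x, hx, hx'⟩ := CFTZ.cl_ker h3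
    have hpar : ∀ v : Pr F, od v d % 3 = od v d' % 3 := by
      intro v
      by_cases hv : v ∈ S
      · have h4 := congrFun h1 ⟨v, hv⟩
        have h5 := congrArg Fin.val h4
        simp only at h5
        omega
      · have h4 := hd.2 v hv
        have h5 := hd'.2 v hv
        omega
    have h6 : dv d = dv (d' * x ^ 3) := by
      rw [pow_succ, pow_two, o13_dv_mul hd'.1 (mul_ne_zero (mul_ne_zero hx hx) hx), o13_dv_mul (mul_ne_zero hx hx) hx, o13_dv_mul hx hx, ← hx']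
      ext v
      rw [Finsupp.add_apply, Finsupp.add_apply, Finsupp.add_apply, Finsupp.sub_apply, hE, hE]
      show od v d = od v d' + _
      have := hpar v
      omega
    obtain ⟨u, hu⟩ := (dv_eq_iff hd.1 (mul_ne_zero hd'.1 (pow_ne_zero 3 hx))).1 h6
    obtain ⟨w, hw, s, hs, hs'⟩ := hU u
    refine ⟨w, hw, x * s, mul_ne_zero hx hs, ?_⟩
    rw [hu, hs']
    ring
  -- representatives
  have hrep : ∃ ρ : (S → Fin 3) × Additive (ClassGroup (𝓞 F)) → F, ∀ d, LS S d → LS S (ρ (Φ d)) ∧ Φ (ρ (Φ d)) = Φ d := by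
    refine ⟨fun p => if h : ∃ d, LS S d ∧ Φ d = p then h.choose else 0, fun d hd => ?_⟩
    have hex : ∃ d', LS S d' ∧ Φ d' = Φ d := ⟨d, hd, rfl⟩
    simp only
    rw [dif_pos hex]
    exact hex.choose_spec
  obtain ⟨ρ, hρ⟩ := hrep
  have : Finite (Additive (ClassGroup (𝓞 F))) := inferInstanceAs (Finite (ClassGroup (𝓞 F)))
  have : Fintype (Additive (ClassGroup (𝓞 F))) := Fintype.ofFinite _
  refine ⟨(Finset.univ ×ˢ U).image (fun p => ρ p.1 * p.2), fun d hd => ?_⟩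
  obtain ⟨h1, h2⟩ := hρ d hd
  obtain ⟨w, hw, hs⟩ := key d _ hd h1 h2.symm
  exact ⟨_, Finset.mem_image_of_mem _ (Finset.mk_mem_product (Finset.mem_univ (Φ d)) hw), hs⟩

end Pool.Agent.H52OM
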