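import Pool.Agent.Lib.H52OM.Defs
import Pool.Agent.Lib.H52OM.O12
import Pool.Agent.Lib.H52OM.O13
import Pool.Agent.Lib.CFT.X00

/-!
# O14 (M): S and kappa with trivial Selmer group. Copy of D14 of H60R with cubes instead of squares.
-/

set_option autoImplicit false

open NumberField IsDedekindDomain WeierstrassCurve WeierstrassCurve.Affine
open Pool.Agent.H60.UDef CFT
open Pool.Agent.H60R (Fc va emb va_emb)
open scoped WithZero

namespace Pool.Agent.H52OM

theorem o14_real {F : Type} [Field F] {w : F} (hw : w ^ 2 + w + 1 = 0) (φ : F →+* ℝ) : False := by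
  have h := congrArg φ hw
  rw [map_add, map_add, map_pow, map_one, map_zero] at h
  nlinarith [sq_nonneg (2 * φ w + 1)]

open Classical in
theorem o14_ind {F : Type} [Field F] [NumberField F] {w : F} (hw : w ^ 2 + w + 1 = 0)
    (S₀ : Finset (Pr F)) (R : Finset F) (hR : ∀ d : F, LS S₀ d → ∃ r ∈ R, CubE d r) (n : ℕ) :
    ∀ (S : Finset (Pr F)) (κ : Pr F → F), Ab3 S → (∀ v, κ v ≠ 0) →
      (∀ d, LS S d → (∀ v ∈ S, Wl v (κ v) d) → LS S₀ d) →
      (R.filter (fun r => ¬ CubE r 1 ∧ LS S r ∧ ∀ v ∈ S, Wl v (κ v) r)).card ≤ n →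
      ∃ (S : Finset (Pr F)) (κ : Pr F → F), Ab3 S ∧ (∀ v, κ v ≠ 0) ∧
        ∀ d : F, LS S d → (∀ v ∈ S, Wl v (κ v) d) → CubE d 1 := by
  induction n with
  | zero =>
    intro S κ h2 hκ h0 hc
    refine ⟨S, κ, h2, hκ, fun d hd hwl => ?_⟩
    by_contra hsq
    obtain ⟨r, hr, hdr⟩ := hR d (h0 d hd hwl)
    have h1 : r ∈ R.filter (fun r => ¬ CubE r 1 ∧ LS S r ∧ ∀ v ∈ S, Wl v (κ v) r) :=
      Finset.mem_filter.2 ⟨hr, fun h => hsq (hdr.trans h), cubE_ls hdr.symm hd, fun v hv => cubE_wl hdr.symm (hwl v hv)⟩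
    have := Finset.card_pos.2 ⟨r, h1⟩
    omega
  | succ n ih =>
    intro S κ h2 hκ h0 hc
    by_cases hgood : ∀ d : F, LS S d → (∀ v ∈ S, Wl v (κ v) d) → CubE d 1
    · exact ⟨S, κ, h2, hκ, hgood⟩
    push Not at hgood
    obtain ⟨d, hd, hwl, hsq⟩ := hgood
    obtain ⟨q, ϖ, hq, hϖ, hnW, hkill⟩ := kill hw (o14_real hw) S h2 κ hκ hd hwl hsq
    have hback : ∀ d' : F, LS (insert q S) d' → (∀ v ∈ insert q S, Wl v (Function.update κ q ϖ v) d') →
        ∀ v ∈ S, Wl v (κ v) d' := by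
      intro d' _ hw' v hv
      have h1 := hw' v (Finset.mem_insert_of_mem hv)
      have hne : v ≠ q := fun h => hq (h ▸ hv)
      rwa [Function.update_of_ne hne] at h1
    refine ih (insert q S) (Function.update κ q ϖ) (fun v hv => Finset.mem_insert_of_mem (h2 v hv)) ?_ ?_ ?_
    · intro v
      by_cases hv : v = q
      · rw [hv, Function.update_self]
        exact hϖ
      · rw [Function.update_of_ne hv]
        exact hκ v
    · intro d' hd' hw'
      exact h0 d' (hkill d' hd' hw') (hback d' hd' hw')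
    · obtain ⟨r, hr, hdr⟩ := hR d (h0 d hd hwl)
      have h1 : r ∈ R.filter (fun r => ¬ CubE r 1 ∧ LS S r ∧ ∀ v ∈ S, Wl v (κ v) r) :=
        Finset.mem_filter.2 ⟨hr, fun h => hsq (hdr.trans h), cubE_ls hdr.symm hd, fun v hv => cubE_wl hdr.symm (hwl v hv)⟩
      have h3 : R.filter (fun r => ¬ CubE r 1 ∧ LS (insert q S) r ∧
          ∀ v ∈ insert q S, Wl v (Function.update κ q ϖ v) r) ⊂
          R.filter (fun r => ¬ CubE r 1 ∧ LS S r ∧ ∀ v ∈ S, Wl v (κ v) r) := by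
        refine Finset.ssubset_iff_subset_ne.2 ⟨?_, ?_⟩
        · intro r' hr'
          obtain ⟨hr1, hr2, hr3, hr4⟩ := Finset.mem_filter.1 hr'
          exact Finset.mem_filter.2 ⟨hr1, hr2, hkill r' hr3 hr4, hback r' hr3 hr4⟩
        · intro heq
          rw [← heq] at h1
          obtain ⟨hr1, hr2, hr3, hr4⟩ := Finset.mem_filter.1 h1
          have h5 := hr4 q (Finset.mem_insert_self q S)
          rw [Function.update_self] at h5
          exact hnW (cubE_wl hdr h5)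
      have h4 := Finset.card_lt_card h3
      omega

theorem selmer_trivial {F : Type} [Field F] [NumberField F] {w : F} (hw : w ^ 2 + w + 1 = 0) :
    ∃ (S : Finset (Pr F)) (κ : Pr F → F), Ab3 S ∧ (∀ v, κ v ≠ 0) ∧ ∀ d : F, LS S d → (∀ v ∈ S, Wl v (κ v) d) → CubE d 1 := by
  classical
  obtain ⟨S₀, hS₀⟩ : ∃ S₀ : Finset (Pr F), S₀ = (m_fin F 3).toFinset := ⟨_, rfl⟩
  have h2 : Ab3 S₀ := by
    intro v hv
    rw [hS₀, Set.Finite.mem_toFinset]
    exact_mod_cast hv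
  obtain ⟨R, hR⟩ := ls_fin S₀
  exact o14_ind hw S₀ R hR _ S₀ (fun _ => 1) h2 (fun _ => one_ne_zero) (fun d hd _ => hd) le_rfl

end Pool.Agent.H52OM
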