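import Pool.Agent.Lib.H52OM.Defs

/-!
# O15: the descent map and the automorphism on the points of `y² = x³ + (c/2)²`

With `V = y + c/2` the equation is `V (V - c) = x³`. If `y = l x + m` is a line, its three points of intersection have
`V₁ V₂ V₃ = n³`, `n = m + c/2`; if it passes through `(0, -c/2)`, the other two have `V₂ V₃ = l³ c`.
-/

set_option autoImplicit false

open NumberField IsDedekindDomain WeierstrassCurve WeierstrassCurve.Affine
open Pool.Agent.H60.UDef CFT
open scoped WithZero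

namespace Pool.Agent.H52OM

theorem o15_mono {F : Type} [Field F] {c : F} {P : Eo c} {x y x' y' : F} (h : IsAt P x y) (hx : x = x') (hy : y = y') :
    IsAt P x' y' := by
  rw [hx, hy] at h
  exact h

/-- Two points with the same abscissa. -/
theorem o15_same {F : Type} [Field F] {c : F} {P Q : Eo c} {x y z : F} (h : IsAt P x y) (h' : IsAt Q x z) :
    Q = P ∨ Q = -P := by
  have e1 := eo_eqn h
  have e2 := eo_eqn h'
  have e3 : (z - y) * (z + y) = 0 := by linear_combination e2 - e1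
  rcases mul_eq_zero.1 e3 with h3 | h3
  · left
    exact h'.ext (o15_mono h rfl (by linear_combination -h3))
  · right
    exact h'.ext (o15_mono h.neg rfl (by linear_combination -h3))

theorem o15_cube_of_ne {F : Type} [Field F] {a b : F} (s : F) (ha : a ≠ 0) (h : a = b * s ^ 3) : CubE a b := by
  refine ⟨s, ?_, h⟩
  rintro rfl
  apply ha
  rw [h]
  ring

/-- If `a b` is a cube, then `a` is `b⁻¹` up to cubes. -/
theorem o15_inv {F : Type} [Field F] {a b : F} (hb : b ≠ 0) (h : CubE (a * b) 1) : CubE a b⁻¹ := by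
  obtain ⟨s, hs, e⟩ := h
  refine ⟨s, hs, ?_⟩
  rw [one_mul] at e
  rw [← e]
  field_simp

theorem o15_negmul {F : Type} [Field F] [CharZero F] {c : F} (hc : c ≠ 0) (P : Eo c) : CubE (al P * al (-P)) 1 := by
  by_cases h0 : P = 0
  · rw [h0, Point.neg_zero, al_zero, mul_one]
    exact CubE.refl _
  obtain ⟨x, y, h⟩ := exists_isAt h0
  have E := eo_eqn h
  have h2 : (2 : F) ≠ 0 := two_ne_zero
  by_cases h1 : y + c / 2 = 0
  · have h3 : -y + c / 2 = c := by linear_combination (-1 : F) * h1 + (by ring : c / 2 + c / 2 = c)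
    rw [al_T' h h1, al_isAt h.neg (by rw [h3]; exact hc), h3, inv_mul_cancel₀ hc]
    exact CubE.refl _
  by_cases h4 : -y + c / 2 = 0
  · have h3 : y + c / 2 = c := by linear_combination (-1 : F) * h4 + (by ring : c / 2 + c / 2 = c)
    rw [al_T' h.neg h4, al_isAt h h1, h3, mul_inv_cancel₀ hc]
    exact CubE.refl _
  · rw [al_isAt h h1, al_isAt h.neg h4]
    refine o15_cube_of_ne (-x) (mul_ne_zero h1 h4) ?_
    linear_combination -E

theorem al_neg {F : Type} [Field F] [CharZero F] {c : F} (hc : c ≠ 0) (P : Eo c) : CubE (al (-P)) (al P)⁻¹ := by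
  refine o15_inv (al_ne hc P) ?_
  rw [mul_comm]
  exact o15_negmul hc P

/-- The three points of a line through `(0, -c/2)`. -/
theorem o15_line0 {F : Type} [Field F] [CharZero F] {c : F} (hc : c ≠ 0) {P Q R : Eo c} {x₁ y₁ x₂ y₂ x₃ y₃ l m : F}
    (h₁ : IsAt P x₁ y₁) (h₂ : IsAt Q x₂ y₂) (h₃ : IsAt R x₃ y₃)
    (v1 : y₁ = l * x₁ + m) (v2 : y₂ = l * x₂ + m) (v3 : y₃ = l * x₃ + m)
    (R2 : x₁ * x₂ + x₁ * x₃ + x₂ * x₃ = -2 * l * m) (hv : y₁ + c / 2 = 0) :
    CubE (al P * al Q * al R) 1 := by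
  have h2 : (2 : F) ≠ 0 := two_ne_zero
  have E₁ := eo_eqn h₁
  have hx1 : x₁ = 0 := by
    have : x₁ ^ 3 = 0 := by linear_combination (y₁ - c / 2) * hv - E₁
    exact pow_eq_zero_iff (three_ne_zero) |>.1 this
  have hm : m = -(c / 2) := by
    rw [hx1] at v1
    linear_combination hv - v1
  have hy2 : y₂ + c / 2 = l * x₂ := by linear_combination v2 + hm
  have hy3 : y₃ + c / 2 = l * x₃ := by linear_combination v3 + hm
  have hx23 : x₂ * x₃ = l * c := by
    rw [hx1, hm] at R2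
    linear_combination R2 + (by ring : l * (c / 2 + c / 2) = l * c)
  by_cases hv2 : y₂ + c / 2 = 0
  · have hl : l = 0 := by
      have E₂ := eo_eqn h₂
      have hx2 : x₂ = 0 := by
        have : x₂ ^ 3 = 0 := by linear_combination (y₂ - c / 2) * hv2 - E₂
        exact pow_eq_zero_iff (three_ne_zero) |>.1 this
      rw [hx2, zero_mul] at hx23
      exact (mul_eq_zero.1 hx23.symm).resolve_right hc
    rw [al_T' h₁ hv, al_T' h₂ hv2, al_T' h₃ (by rw [hy3, hl, zero_mul])]
    exact ⟨c⁻¹, inv_ne_zero hc, by ring⟩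
  by_cases hv3 : y₃ + c / 2 = 0
  · exfalso
    apply hv2
    have E₃ := eo_eqn h₃
    have hx3 : x₃ = 0 := by
      have : x₃ ^ 3 = 0 := by linear_combination (y₃ - c / 2) * hv3 - E₃
      exact pow_eq_zero_iff (three_ne_zero) |>.1 this
    rw [hx3, mul_zero] at hx23
    rw [hy2, (mul_eq_zero.1 hx23.symm).resolve_right hc, zero_mul]
  · rw [al_T' h₁ hv, al_isAt h₂ hv2, al_isAt h₃ hv3]
    refine o15_cube_of_ne l (mul_ne_zero (mul_ne_zero (inv_ne_zero hc) hv2) hv3) ?_
    rw [hy2, hy3]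
    have : c⁻¹ * (l * x₂) * (l * x₃) = c⁻¹ * l ^ 2 * (x₂ * x₃) := by ring
    rw [this, hx23]
    field_simp

/-- The three points of a line (not vertical). -/
theorem o15_line {F : Type} [Field F] [CharZero F] {c : F} (hc : c ≠ 0) {P Q R : Eo c} {x₁ y₁ x₂ y₂ x₃ y₃ l m : F}
    (h₁ : IsAt P x₁ y₁) (h₂ : IsAt Q x₂ y₂) (h₃ : IsAt R x₃ y₃)
    (v1 : y₁ = l * x₁ + m) (v2 : y₂ = l * x₂ + m) (v3 : y₃ = l * x₃ + m)
    (R0 : x₁ * x₂ * x₃ = m ^ 2 - (c / 2) ^ 2)
    (R1 : x₁ + x₂ + x₃ = l ^ 2)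
    (R2 : x₁ * x₂ + x₁ * x₃ + x₂ * x₃ = -2 * l * m) :
    CubE (al P * al Q * al R) 1 := by
  by_cases hv1 : y₁ + c / 2 = 0
  · exact o15_line0 hc h₁ h₂ h₃ v1 v2 v3 R2 hv1
  by_cases hv2 : y₂ + c / 2 = 0
  · have := o15_line0 hc h₂ h₁ h₃ v2 v1 v3 (by linear_combination R2) hv2
    rwa [mul_comm (al Q)] at this
  by_cases hv3 : y₃ + c / 2 = 0
  · have := o15_line0 hc h₃ h₁ h₂ v3 v1 v2 (by linear_combination R2) hv3
    rwa [mul_comm (al R * al P), mul_comm (al R), ← mul_assoc, mul_comm (al Q)] at this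
  · rw [al_isAt h₁ hv1, al_isAt h₂ hv2, al_isAt h₃ hv3]
    refine o15_cube_of_ne (m + c / 2) (mul_ne_zero (mul_ne_zero hv1 hv2) hv3) ?_
    rw [v1, v2, v3]
    linear_combination l ^ 3 * R0 + l ^ 2 * (m + c / 2) * R2 + l * (m + c / 2) ^ 2 * R1

open Classical in
theorem o15_sum {F : Type} [Field F] [CharZero F] {c : F} (hc : c ≠ 0) {P Q : Eo c} (hP : P ≠ 0) (hQ : Q ≠ 0) (hPQ : P + Q ≠ 0) :
    CubE (al P * al Q * al (-(P + Q))) 1 := by
  obtain ⟨x₁, y₁, h₁⟩ := exists_isAt hP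
  obtain ⟨x₂, y₂, h₂⟩ := exists_isAt hQ
  have E₁ := eo_eqn h₁
  have E₂ := eo_eqn h₂
  by_cases hx : x₁ = x₂
  · subst hx
    have hQP : Q = P := by
      refine (o15_same h₁ h₂).resolve_right fun h => hPQ ?_
      rw [h, add_neg_cancel]
    subst hQP
    have hy : y₁ ≠ 0 := by
      intro hy
      apply hPQ
      rw [hy] at h₁
      exact h₁.dbl_zero
    have h₃ := (h₁.dbl hy).neg
    rw [Algebra.algebraMap_self_apply] at h₃
    set l := (3 * x₁ ^ 2 + 0) / (2 * y₁) with hl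
    have hl2 : l * (2 * y₁) = 3 * x₁ ^ 2 := by
      rw [hl]
      field_simp
      ring
    refine o15_line hc h₁ h₁ h₃ (l := l) (m := y₁ - l * x₁) (by ring) (by ring) (by ring) ?_ (by ring) ?_
    · linear_combination (-1 : F) * E₁ + x₁ * hl2
    · linear_combination hl2
  · have h₃ := (h₁.add h₂ hx).neg
    have hd : x₁ - x₂ ≠ 0 := sub_ne_zero.2 hx
    set l := (y₁ - y₂) / (x₁ - x₂) with hl
    have hl2 : l * (x₁ - x₂) = y₁ - y₂ := by
      rw [hl]
      field_simp
    have A : l ^ 2 * (x₁ + x₂) + 2 * l * (y₁ - l * x₁) = x₁ ^ 2 + x₁ * x₂ + x₂ ^ 2 := by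
      apply mul_right_cancel₀ hd
      linear_combination E₁ - E₂ + (y₁ + y₂ - l * (x₁ - x₂)) * hl2
    refine o15_line hc h₁ h₂ h₃ (l := l) (m := y₁ - l * x₁) (by ring) (by linear_combination hl2) (by ring) ?_ (by ring) ?_
    · linear_combination x₁ * A - E₁
    · linear_combination A

open Classical in
theorem al_add {F : Type} [Field F] [CharZero F] {c : F} (hc : c ≠ 0) (P Q : Eo c) : CubE (al (P + Q)) (al P * al Q) := by
  by_cases hP : P = 0
  · rw [hP, zero_add, al_zero, one_mul]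
    exact CubE.refl _
  by_cases hQ : Q = 0
  · rw [hQ, add_zero, al_zero, mul_one]
    exact CubE.refl _
  by_cases hPQ : P + Q = 0
  · rw [hPQ, al_zero, eq_neg_of_add_eq_zero_right hPQ]
    exact (o15_negmul hc P).symm
  · have h1 := o15_sum hc hP hQ hPQ
    have h2 := o15_inv (al_ne hc _) h1
    have h3 := al_neg hc (P + Q)
    have h4 := h3.inv
    rw [inv_inv] at h4
    exact h4.symm.trans h2.symm

theorem al_wac {F : Type} [Field F] [CharZero F] {c : F} (hc : c ≠ 0) {w : F} (hw : w ^ 2 + w + 1 = 0) (P : Eo c) :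
    al (wac w P) = al P := by
  by_cases hP : P = 0
  · rw [hP, wac_zero]
  obtain ⟨x, y, h⟩ := exists_isAt hP
  have h' := wac_isAt hc hw h
  by_cases hy : y + c / 2 = 0
  · rw [al_T' h hy, al_T' h' hy]
  · rw [al_isAt h hy, al_isAt h' hy]

theorem wac_neg {F : Type} [Field F] [CharZero F] {c : F} (hc : c ≠ 0) {w : F} (hw : w ^ 2 + w + 1 = 0) (P : Eo c) :
    wac w (-P) = -wac w P := by
  by_cases hP : P = 0
  · rw [hP, Point.neg_zero, wac_zero, Point.neg_zero]
  obtain ⟨x, y, h⟩ := exists_isAt hP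
  exact (wac_isAt hc hw h.neg).ext (wac_isAt hc hw h).neg

open Classical in
theorem wac_add {F : Type} [Field F] [CharZero F] {c : F} (hc : c ≠ 0) {w : F} (hw : w ^ 2 + w + 1 = 0) (P Q : Eo c) :
    wac w (P + Q) = wac w P + wac w Q := by
  have hw3 := w_cube hw
  have hw0 : w ≠ 0 := by
    rintro rfl
    rw [zero_pow three_ne_zero] at hw3
    exact zero_ne_one hw3
  by_cases hP : P = 0
  · rw [hP, zero_add, wac_zero, zero_add]
  by_cases hQ : Q = 0
  · rw [hQ, add_zero, wac_zero, add_zero]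
  obtain ⟨x₁, y₁, h₁⟩ := exists_isAt hP
  obtain ⟨x₂, y₂, h₂⟩ := exists_isAt hQ
  have g₁ := wac_isAt hc hw h₁
  have g₂ := wac_isAt hc hw h₂
  by_cases hx : x₁ = x₂
  · subst hx
    rcases o15_same h₁ h₂ with hQP | hneg
    · subst hQP
      by_cases hy : y₁ = 0
      · rw [hy] at h₁ g₁
        rw [h₁.dbl_zero, g₁.dbl_zero, wac_zero]
      have h₃ := wac_isAt hc hw (h₁.dbl hy)
      have g₃ := g₁.dbl hy
      rw [Algebra.algebraMap_self_apply] at h₃ g₃
      have hs : (3 * (w * x₁) ^ 2 + 0) / (2 * y₁) = w ^ 2 * ((3 * x₁ ^ 2 + 0) / (2 * y₁)) := by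
        field_simp
        ring
      rw [hs] at g₃
      set l := (3 * x₁ ^ 2 + 0) / (2 * y₁) with hl
      refine h₃.ext (o15_mono g₃ ?_ ?_)
      · linear_combination (w * l ^ 2) * hw3
      · linear_combination (-l * (l ^ 2 - x₁ - x₁) + l * x₁) * hw3 - (w ^ 3 * l ^ 3) * hw3
    · rw [hneg, add_neg_cancel, wac_neg hc hw, add_neg_cancel, wac_zero]
  · have h₃ := wac_isAt hc hw (h₁.add h₂ hx)
    have hd : x₁ - x₂ ≠ 0 := sub_ne_zero.2 hx
    have g₃ := g₁.add g₂ (fun h => hx (mul_left_cancel₀ hw0 h))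
    have hd' : w * x₁ - w * x₂ ≠ 0 := by
      rw [← mul_sub]
      exact mul_ne_zero hw0 hd
    have hs : (y₁ - y₂) / (w * x₁ - w * x₂) = w ^ 2 * ((y₁ - y₂) / (x₁ - x₂)) := by
      rw [div_eq_iff hd']
      field_simp
      linear_combination (y₂ - y₁) * hw3
    rw [hs] at g₃
    set l := (y₁ - y₂) / (x₁ - x₂) with hl
    refine h₃.ext (o15_mono g₃ ?_ ?_)
    · linear_combination (w * l ^ 2) * hw3
    · linear_combination (-l * (l ^ 2 - x₁ - x₂) + l * x₁) * hw3 - (w ^ 3 * l ^ 3) * hw3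

open Classical in
/-- `P + w P + w² P = 0`. -/
theorem wac_sum {F : Type} [Field F] [CharZero F] {c : F} (hc : c ≠ 0) {w : F} (hw : w ^ 2 + w + 1 = 0) (P : Eo c) :
    P + wac w P + wac w (wac w P) = 0 := by
  have hw3 := w_cube hw
  by_cases hP : P = 0
  · rw [hP, wac_zero, wac_zero, add_zero, add_zero]
  obtain ⟨x, y, h⟩ := exists_isAt hP
  have E := eo_eqn h
  have h1 := wac_isAt hc hw h
  have h2 := wac_isAt hc hw h1
  rw [add_eq_zero_iff_eq_neg]
  by_cases hx : x = 0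
  · subst hx
    clear h2
    rw [mul_zero] at h1
    rw [h1.ext h, h1.ext h]
    have hy : y ≠ 0 := by
      rintro rfl
      have : (c / 2) ^ 2 = 0 := by linear_combination -E
      exact (div_ne_zero hc two_ne_zero) (pow_eq_zero_iff (two_ne_zero) |>.1 this)
    have h3 := h.dbl hy
    rw [Algebra.algebraMap_self_apply] at h3
    refine h3.ext (o15_mono h.neg ?_ ?_)
    · ring
    · ring
  · have hne : x ≠ w * x := by
      intro h0
      have h4 : (1 - w) * x = 0 := by linear_combination h0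
      rcases mul_eq_zero.1 h4 with h5 | h5
      · have h6 : w = 1 := by linear_combination -h5
        rw [h6] at hw
        norm_num at hw
      · exact hx h5
    have h3 := h.add h1 hne
    rw [sub_self, zero_div] at h3
    refine h3.ext (o15_mono h2.neg ?_ ?_)
    · linear_combination x * hw
    · ring

open Classical in
theorem wac_wac_wac {F : Type} [Field F] [CharZero F] {c : F} (hc : c ≠ 0) {w : F} (hw : w ^ 2 + w + 1 = 0) (P : Eo c) :
    wac w (wac w (wac w P)) = P := by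
  have hw3 := w_cube hw
  by_cases hP : P = 0
  · rw [hP, wac_zero, wac_zero, wac_zero]
  obtain ⟨x, y, h⟩ := exists_isAt hP
  refine (wac_isAt hc hw (wac_isAt hc hw (wac_isAt hc hw h))).ext (o15_mono h ?_ rfl)
  linear_combination (-x) * hw3

end Pool.Agent.H52OM
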