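import Pool.Agent.Lib.H52OM.Defs
import Pool.Agent.Lib.H52OM.O15

/-!
# O16: points with cubic image are divisible by `1 - w`

If `s³ - q³ = c`, the point `(s q, (s³ + q³)/2)` is `R - wac w R` with `R = (-w K, -w (1 - w) K (s + q)/2)`, `K = s² + s q + q²`:
`R` is a point since `u³ = -K³`, `z² = -3 K² (s + q)²/4`, `c²/4 = (s - q)² K²/4`; the chord from `R` to `-wac w R` has slope `s + q`.
-/

set_option autoImplicit false

open NumberField IsDedekindDomain WeierstrassCurve WeierstrassCurve.Affine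
open Pool.Agent.H60.UDef CFT
open scoped WithZero

namespace Pool.Agent.H52OM

open Classical in
theorem o16_param {F : Type} [Field F] [CharZero F] {c : F} (hc : c ≠ 0) {w : F} (hw : w ^ 2 + w + 1 = 0) {P : Eo c} {x y s q : F}
    (h : IsAt P x y) (h1 : s ^ 3 - q ^ 3 = c) (h2 : x = s * q) (h3 : y = (s ^ 3 + q ^ 3) / 2) :
    ∃ R : Eo c, P = R - wac w R := by
  have h20 : (2 : F) ≠ 0 := two_ne_zero
  have hw3 := w_cube hw
  have hw0 : w ≠ 0 := by
    rintro rfl
    rw [zero_pow three_ne_zero] at hw3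
    exact zero_ne_one hw3
  have hw1 : 1 - w ≠ 0 := by
    intro h5
    have h6 : w = 1 := by linear_combination -h5
    rw [h6] at hw
    norm_num at hw
  obtain ⟨K, hK⟩ : ∃ K : F, K = s ^ 2 + s * q + q ^ 2 := ⟨_, rfl⟩
  have hcK : c = (s - q) * K := by rw [hK, ← h1]; ring
  have hK0 : K ≠ 0 := by
    intro h0
    apply hc
    rw [hcK, h0, mul_zero]
  obtain ⟨R, hR⟩ := eo_nonsing (x := -(w * K)) (y := -(w * (1 - w) * K * (s + q) / 2)) hc (by
    have e1 : (w * (1 - w)) ^ 2 = -3 := by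
      linear_combination (w ^ 2 - 3 * w + 3) * hw
    have e2 : (-(w * K)) ^ 3 = -K ^ 3 := by
      linear_combination (-K ^ 3) * hw3
    rw [e2, hcK]
    have e3 : (-(w * (1 - w) * K * (s + q) / 2)) ^ 2 = (w * (1 - w)) ^ 2 * (K * (s + q) / 2) ^ 2 := by ring
    rw [e3, e1]
    linear_combination (K ^ 2) * hK)
  have hR2 := (wac_isAt hc hw hR).neg
  refine ⟨R, ?_⟩
  rw [sub_eq_add_neg]
  have hne : -(w * K) ≠ w * -(w * K) := by
    intro h0
    have h5 : w * ((1 - w) * K) = 0 := by linear_combination -h0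
    exact mul_ne_zero hw0 (mul_ne_zero hw1 hK0) h5
  have h4 := hR.add hR2 hne
  have hl : (-(w * (1 - w) * K * (s + q) / 2) - -(-(w * (1 - w) * K * (s + q) / 2))) / (-(w * K) - w * -(w * K)) = s + q := by
    rw [div_eq_iff (sub_ne_zero.2 hne)]
    ring
  rw [hl] at h4
  refine h.ext (o15_mono h4 ?_ ?_)
  · rw [h2]
    linear_combination (-1 : F) * hK + K * hw
  · rw [h3]
    linear_combination (3 / 2 * (s + q)) * hK - (3 / 2 * (s + q) * K) * hw

open Classical in
theorem al_cube {F : Type} [Field F] [CharZero F] {c : F} (hc : c ≠ 0) {w : F} (hw : w ^ 2 + w + 1 = 0) (P : Eo c)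
    (h : CubE (al P) 1) : ∃ R : Eo c, P = R - wac w R := by
  by_cases hP : P = 0
  · exact ⟨0, by rw [hP, wac_zero, sub_zero]⟩
  obtain ⟨x, y, h₁⟩ := exists_isAt hP
  have E := eo_eqn h₁
  obtain ⟨s, hs, e⟩ := h
  by_cases hy : y + c / 2 = 0
  · rw [al_T' h₁ hy, one_mul] at e
    have hc3 : c = (s⁻¹) ^ 3 := by
      rw [inv_pow, ← e, inv_inv]
    have hx : x = 0 := by
      have : x ^ 3 = 0 := by linear_combination (y - c / 2) * hy - E
      exact pow_eq_zero_iff (three_ne_zero) |>.1 this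
    refine o16_param hc hw h₁ (s := 0) (q := -s⁻¹) ?_ ?_ ?_
    · rw [hc3]
      ring
    · rw [hx, zero_mul]
    · rw [hc3] at hy
      linear_combination hy
  · rw [al_isAt h₁ hy, one_mul] at e
    refine o16_param hc hw h₁ (s := s) (q := x / s) ?_ ?_ ?_
    · have e3 : s ^ 3 ≠ 0 := pow_ne_zero 3 hs
      apply mul_left_cancel₀ e3
      have e4 : s ^ 3 * (s ^ 3 - (x / s) ^ 3) = s ^ 3 * s ^ 3 - x ^ 3 := by
        rw [div_pow]
        field_simp
      rw [e4, ← e]
      linear_combination E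
    · field_simp
    · have e3 : s ^ 3 ≠ 0 := pow_ne_zero 3 hs
      apply mul_left_cancel₀ e3
      have e4 : s ^ 3 * ((s ^ 3 + (x / s) ^ 3) / 2) = (s ^ 3 * s ^ 3 + x ^ 3) / 2 := by
        rw [div_pow]
        field_simp
      rw [e4, ← e]
      linear_combination (1 / 2 : F) * E

open Classical in
theorem phi_zero {F : Type} [Field F] [CharZero F] {c : F} (hc : c ≠ 0) {w : F} (hw : w ^ 2 + w + 1 = 0) (R : Eo c)
    (h : R - wac w R = 0) : R = 0 ∨ IsAt R 0 (c / 2) ∨ IsAt R 0 (-(c / 2)) := by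
  by_cases hR : R = 0
  · exact Or.inl hR
  right
  obtain ⟨x, y, h₁⟩ := exists_isAt hR
  have E := eo_eqn h₁
  have h2 := wac_isAt hc hw h₁
  rw [← sub_eq_zero.1 h] at h2
  have h3 := (h2.unique h₁).1
  have hx : x = 0 := by
    have h4 : (1 - w) * x = 0 := by linear_combination -h3
    rcases mul_eq_zero.1 h4 with h5 | h5
    · have h6 : w = 1 := by linear_combination -h5
      rw [h6] at hw
      norm_num at hw
    · exact h5
  subst hx
  have h5 : (y - c / 2) * (y + c / 2) = 0 := by linear_combination E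
  rcases mul_eq_zero.1 h5 with h6 | h6
  · left
    exact o15_mono h₁ rfl (by linear_combination h6)
  · right
    exact o15_mono h₁ rfl (by linear_combination h6)

open Classical in
theorem al_phi {F : Type} [Field F] [CharZero F] {c : F} (hc : c ≠ 0) {w : F} (hw : w ^ 2 + w + 1 = 0) (R : Eo c) :
    CubE (al (R - wac w R)) 1 := by
  rw [sub_eq_add_neg]
  have h1 := al_add hc R (-wac w R)
  have h2 := al_neg hc (wac w R)
  rw [al_wac hc hw] at h2
  have h3 := h1.trans ((CubE.refl (al R)).mul h2)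
  rwa [mul_inv_cancel₀ (al_ne hc R)] at h3

end Pool.Agent.H52OM
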