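import Pool.Agent.Lib.H52OM.Defs
import Pool.Agent.Lib.H60R.D17

/-!
# O17: the order of `al P` is divisible by 3 at `v` if the order of `c` is

`V = y + c/2`, `V (V - c) = x³`. If `od v V < od v c` then `od v (V - c) = od v V` and `2 od v V = 3 od v x`; if `od v V > od v c` then
`od v (V - c) = od v c` and `od v V + od v c = 3 od v x`. Only `3 ∣ od v c` is used.
-/

set_option autoImplicit false

open NumberField IsDedekindDomain WeierstrassCurve WeierstrassCurve.Affine
open Pool.Agent.H60.UDef CFT
open scoped WithZero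

namespace Pool.Agent.H52OM

theorem o17_neg {F : Type} [Field F] [NumberField F] (v : Pr F) (a : F) : od v (-a) = od v a := by
  unfold od
  rw [Valuation.map_neg]

theorem al_od {F : Type} [Field F] [NumberField F] {c : F} (hc : c ≠ 0) (v : Pr F) (hv : (3 : ℤ) ∣ od v c) (P : Eo c) :
    (3 : ℤ) ∣ od v (al P) := by
  by_cases hP : P = 0
  · rw [hP, al_zero, od_one]
    exact dvd_zero _
  obtain ⟨x, y, h₁⟩ := exists_isAt hP
  have E := eo_eqn h₁
  by_cases hy : y + c / 2 = 0
  · rw [al_T' h₁ hy]
    have h2 : od v c + od v c⁻¹ = 0 := by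
      rw [← od_mul v hc (inv_ne_zero hc), mul_inv_cancel₀ hc, od_one]
    omega
  rw [al_isAt h₁ hy]
  by_cases hy' : y + c / 2 - c = 0
  · have h2 : y + c / 2 = c := by linear_combination hy'
    rw [h2]
    exact hv
  have hE : (y + c / 2) * (y + c / 2 - c) = x ^ 3 := by linear_combination E
  have hx : x ≠ 0 := by
    rintro rfl
    rw [zero_pow three_ne_zero] at hE
    rcases mul_eq_zero.1 hE with h | h
    · exact hy h
    · exact hy' h
  have key : od v (y + c / 2) + od v (y + c / 2 - c) = 3 * od v x := by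
    rw [← od_mul v hy hy', hE, od_pow v hx]
    norm_num
  have hc' : -c ≠ 0 := neg_ne_zero.2 hc
  have hv' : od v (-c) = od v c := o17_neg v c
  rcases lt_trichotomy (od v (y + c / 2)) (od v c) with h | h | h
  · obtain ⟨-, h3⟩ := Pool.Agent.H60R.d17_add v hy hc' (by rw [hv']; exact h)
    rw [← sub_eq_add_neg] at h3
    omega
  · rw [h]
    exact hv
  · obtain ⟨-, h3⟩ := Pool.Agent.H60R.d17_add v hc' hy (by rw [hv']; exact h)
    rw [add_comm, ← sub_eq_add_neg, hv'] at h3
    omega

end Pool.Agent.H52OM
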