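import Pool.Agent.Lib.H52OM.Defs
import Pool.Agent.Lib.H52OM.O04

/-!
# O18: the local image of the curve `Eo c` when `c / κ` is a cube in the completion
-/

set_option autoImplicit false

open NumberField IsDedekindDomain WeierstrassCurve WeierstrassCurve.Affine
open Pool.Agent.H60.UDef CFT
open Pool.Agent.H60R (Fc va emb va_emb)
open scoped WithZero

namespace Pool.Agent.H52OM

theorem al_wl_of {F : Type} [Field F] [NumberField F] (v : Pr F) {c κ : F} {r : Fc F v} (hr : r ≠ 0)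
    (h : emb v c = emb v κ * r ^ 3) (P : Eo c) : Wl v κ (al P) := by
  have hch : CharZero (Fc F v) := charZero_of_injective_ringHom (emb v).injective
  by_cases hP : P = 0
  · left
    rw [hP, al_zero, map_one]
    exact CubE.refl 1
  obtain ⟨x, y, h₁⟩ := exists_isAt hP
  have E := eo_eqn h₁
  by_cases hy : y + c / 2 = 0
  · right
    left
    rw [al_T' h₁ hy, map_inv₀, h]
    exact ⟨r⁻¹, inv_ne_zero hr, by rw [mul_inv, inv_pow]⟩
  · right
    right
    rw [al_isAt h₁ hy]
    have h2 : emb v (y + c / 2) = emb v y + emb v κ * r ^ 3 / 2 := by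
      rw [map_add, map_div₀, h, map_ofNat]
    have h0 : emb v y + emb v κ * r ^ 3 / 2 ≠ 0 := by
      rw [← h2]
      exact (map_ne_zero (emb v)).2 hy
    have hr3 : r ^ 3 ≠ 0 := pow_ne_zero 3 hr
    have h3 : emb v y / r ^ 3 + emb v κ / 2 = (emb v y + emb v κ * r ^ 3 / 2) / r ^ 3 := by
      field_simp
    refine ⟨emb v x / r ^ 2, emb v y / r ^ 3, ?_, ?_, r, hr, ?_⟩
    · rw [h3]
      exact div_ne_zero h0 hr3
    · have E' : emb v y ^ 2 = emb v x ^ 3 + (emb v κ * r ^ 3 / 2) ^ 2 := by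
        have h4 : emb v (c / 2) = emb v κ * r ^ 3 / 2 := by
          rw [map_div₀, h, map_ofNat]
        rw [← map_pow, E, map_add, map_pow, map_pow, h4]
      rw [div_pow, E', div_pow]
      field_simp
    · rw [h3, h2, div_mul_cancel₀ _ hr3]

theorem al_wl {F : Type} [Field F] [NumberField F] (v : Pr F) :
    ∃ N : ℕ, ∀ c κ : F, κ ≠ 0 → c ≠ 0 → v.valuation F (c / κ ^ 4 - 1) < WithZero.exp (-(N : ℤ)) →
      ∀ P : Eo c, Wl v κ (al P) := by
  obtain ⟨N, hN⟩ := cube_near v
  refine ⟨N, fun c κ hκ hc hval P => ?_⟩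
  have h1 : va v (emb v (c / κ ^ 4) - 1) < WithZero.exp (-(N : ℤ)) := by
    have h2 : emb v (c / κ ^ 4) - 1 = emb v (c / κ ^ 4 - 1) := by rw [map_sub, map_one]
    rw [h2, va_emb]
    exact hval
  obtain ⟨r, hr, hr3⟩ := hN _ h1
  have hκ' : emb v κ ≠ 0 := (map_ne_zero (emb v)).2 hκ
  refine al_wl_of v (r := emb v κ * r) (mul_ne_zero hκ' hr) ?_ P
  rw [mul_pow, hr3, ← map_pow, ← map_mul, ← map_mul]
  congr 1
  field_simp

end Pool.Agent.H52OM
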