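import Pool.Agent.Lib.H52OM.Defs
import Pool.Agent.Lib.H52OM.In
import Pool.Agent.Lib.H52OM.O14
import Pool.Agent.Lib.H52OM.O15
import Pool.Agent.Lib.H52OM.O16
import Pool.Agent.Lib.H52OM.O17
import Pool.Agent.Lib.H52OM.O18
import Pool.Agent.Lib.CFT.B14

/-!
# O19 (M): the curve

PROOF. `S, κ` from `selmer_trivial` (O14), `N` the maximum over `v ∈ S` of the numbers of `al_wl` (O18). `x₀` close to `κ_v²` for `v ∈ S` (`approx`, B14).
`PD3` with `S, N, x₀`: `π₁, π₂, X, p₁, p₂`. `c = π₁ π₂`: for `v ∈ S` `c / κ⁴ = (π₁/x₀)(π₂/x₀)(x₀/κ²)²` is close to 1. `Q = (c/X², -c (π₁+π₂)/(2X³))`, `al Q = π₁² π₂ (-1/X)³`: orders `(2, 1)` at `(p₁, p₂)` modulo 3;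
`T = (0, c/2)`, `al T = c`: orders `(1, 1)`. For a point `P` with orders `(a₁, a₂)`, `e = a₁ + a₂`, `f = a₂ - a₁` modulo 3: `al (P + e T + f Q)` has orders divisible by 3 outside `S` (`al_od`, O17), is locally in the image at `S`
(`al_wl`), so it is a cube and `P + e T + f Q = R - w R` (O16).
-/

set_option autoImplicit false

open NumberField IsDedekindDomain WeierstrassCurve WeierstrassCurve.Affine
open Pool.Agent.H60.UDef CFT
open Pool.Agent.H60R (Fc va emb va_emb)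
open scoped WithZero

namespace Pool.Agent.H52OM

theorem o19_near {K : Type} [Field K] (u : Valuation K ℤᵐ⁰) {N : ℕ} {x y : K} (hx : u (x - 1) < WithZero.exp (-(N : ℤ)))
    (hy : u (y - 1) < WithZero.exp (-(N : ℤ))) : u (x * y - 1) < WithZero.exp (-(N : ℤ)) := by
  have hy1 : u y = 1 := by
    have h1 : u (y - 1) < 1 := hy.trans_le (exp_le_one N)
    have h2 : y = 1 + (y - 1) := by ring
    rw [h2]
    exact Valuation.map_one_add_of_lt _ h1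
  have e : x * y - 1 = (x - 1) * y + (y - 1) := by ring
  rw [e]
  refine Valuation.map_add_lt _ ?_ hy
  rw [map_mul, hy1, mul_one]
  exact hx

theorem o19_bd {ι : Type} (S : Finset ι) (a : ι → ℤ) : ∃ M : ℕ, ∀ v ∈ S, a v ≤ M := by
  refine ⟨S.sup fun v => (a v).toNat, fun v hv => (Int.self_le_toNat _).trans ?_⟩
  exact Int.ofNat_le.2 (Finset.le_sup (f := fun v => (a v).toNat) hv)

theorem o19_toNat (a : ℤ) : ∃ e : ℕ, (e : ℤ) = a % 3 := ⟨(a % 3).toNat, Int.toNat_of_nonneg (by omega)⟩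

/-- `x₀` close to `κ_v²` (relatively) for `v ∈ S`. -/
theorem o19_x0 {F : Type} [Field F] [NumberField F] (S : Finset (Pr F)) (N : ℕ) (κ : Pr F → F) (hκ : ∀ v, κ v ≠ 0) :
    ∃ x₀ : F, x₀ ≠ 0 ∧ ∀ v ∈ S, v.valuation F (x₀ / κ v ^ 2 - 1) < WithZero.exp (-(N : ℤ)) := by
  obtain ⟨M, hM⟩ : ∃ M : ℕ, ∀ v ∈ S, od v (κ v ^ 2) ≤ M := o19_bd S (fun v => od v (κ v ^ 2))
  obtain ⟨x₀, hx₀, h, -⟩ := approx S (N + M) (fun v => κ v ^ 2) (fun _ => 1) (fun _ => one_ne_zero)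
  refine ⟨x₀, hx₀, fun v hv => ?_⟩
  have hk : κ v ^ 2 ≠ 0 := pow_ne_zero 2 (hκ v)
  have e : x₀ / κ v ^ 2 - 1 = (x₀ - κ v ^ 2) * (κ v ^ 2)⁻¹ := by
    rw [sub_mul, mul_inv_cancel₀ hk, div_eq_mul_inv]
  rw [e, map_mul, map_inv₀, val_eq v hk, ← WithZero.exp_neg, neg_neg]
  calc v.valuation F (x₀ - κ v ^ 2) * WithZero.exp (od v (κ v ^ 2))
      < WithZero.exp (-((N + M : ℕ) : ℤ)) * WithZero.exp (od v (κ v ^ 2)) :=
        mul_lt_mul_of_pos_right (h v hv) (WithZero.zero_lt_coe _)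
    _ ≤ WithZero.exp (-(N : ℤ)) := by
        rw [← WithZero.exp_add, WithZero.exp_le_exp]
        have := hM v hv
        push_cast
        omega

open Classical in
theorem o19_nsmul {F : Type} [Field F] [CharZero F] {c : F} (hc : c ≠ 0) (P : Eo c) (n : ℕ) : CubE (al (n • P)) (al P ^ n) := by
  induction n with
  | zero =>
    rw [zero_nsmul, al_zero, pow_zero]
    exact CubE.refl _
  | succ n ih =>
    rw [succ_nsmul, pow_succ (al P) n]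
    exact (al_add hc _ _).trans (ih.mul (CubE.refl _))

open Classical in
/-- The order of `al (P + e T + f Q)` modulo 3. -/
theorem o19_od {F : Type} [Field F] [NumberField F] {c : F} (hc : c ≠ 0) (v : Pr F) (P T Q : Eo c) (e f : ℕ) :
    (3 : ℤ) ∣ od v (al (P + e • T + f • Q)) - (od v (al P) + e * od v (al T) + f * od v (al Q)) := by
  have h1 : CubE (al (P + e • T + f • Q)) (al P * al T ^ e * al Q ^ f) := by
    refine (al_add hc _ _).trans (CubE.mul ?_ (o19_nsmul hc Q f))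
    exact (al_add hc _ _).trans ((CubE.refl _).mul (o19_nsmul hc T e))
  have hP := al_ne hc P
  have hT := al_ne hc T
  have hQ := al_ne hc Q
  have h2 := cubE_od h1 (mul_ne_zero (mul_ne_zero hP (pow_ne_zero e hT)) (pow_ne_zero f hQ)) v
  rwa [od_mul v (mul_ne_zero hP (pow_ne_zero e hT)) (pow_ne_zero f hQ), od_mul v hP (pow_ne_zero e hT), od_pow v hT, od_pow v hQ] at h2

open Classical in
theorem curve_exists {F : Type} [Field F] [NumberField F] {w : F} (hw : w ^ 2 + w + 1 = 0) (hpd : PD3 F) :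
    ∃ (c : F) (p₁ p₂ : Pr F) (T Q : Eo c), c ≠ 0 ∧ IsAt T 0 (c / 2) ∧ (3 : ℤ) ∣ od p₁ c - 1 ∧ (3 : ℤ) ∣ od p₂ c - 1 ∧
      (3 : ℤ) ∣ od p₁ (al Q) - 2 ∧ (3 : ℤ) ∣ od p₂ (al Q) - 1 ∧
      ∀ P : Eo c, ∃ (e f : ℕ) (R : Eo c), P + e • T + f • Q = R - wac w R := by
  obtain ⟨S, κ, -, hκ, hsel⟩ := selmer_trivial hw
  choose Nv hNv using fun v : Pr F => al_wl v
  obtain ⟨N, hN⟩ : ∃ N : ℕ, ∀ v ∈ S, Nv v ≤ N := ⟨S.sup Nv, fun v hv => Finset.le_sup hv⟩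
  obtain ⟨x₀, hx₀, hx₀κ⟩ := o19_x0 S N κ hκ
  obtain ⟨π₁, π₂, X, p₁, p₂, hX, hp, hp1, hp2, hπ1, hπ2, hr1, hr2, ho1, ho1', ho2, ho2', hd⟩ := hpd S N x₀ hx₀
  obtain ⟨c, hcdef⟩ : ∃ c : F, c = π₁ * π₂ := ⟨_, rfl⟩
  have hc : c ≠ 0 := by rw [hcdef]; exact mul_ne_zero hπ1 hπ2
  obtain ⟨T, hT⟩ := eo_nonsing hc (x := 0) (y := c / 2) (by ring)
  obtain ⟨Q, hQ⟩ := eo_nonsing hc (x := c / X ^ 2) (y := -(c * (π₁ + π₂) / (2 * X ^ 3))) (by
    have e1 : (π₁ + π₂) ^ 2 = 4 * c + (X ^ 3) ^ 2 := by rw [← hd, hcdef]; ring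
    have e2 : (-(c * (π₁ + π₂) / (2 * X ^ 3))) ^ 2 = c ^ 2 * (π₁ + π₂) ^ 2 / (4 * X ^ 6) := by
      field_simp
      ring
    rw [e2, e1]
    field_simp
    ring)
  have hyQ : -(c * (π₁ + π₂) / (2 * X ^ 3)) + c / 2 = π₁ ^ 2 * π₂ * (-X⁻¹) ^ 3 := by
    have e1 : -(c * (π₁ + π₂) / (2 * X ^ 3)) + c / 2 = c * (X ^ 3 - π₁ - π₂) / (2 * X ^ 3) := by
      field_simp
      ring
    have e2 : X ^ 3 - π₁ - π₂ = -(2 * π₁) := by rw [← hd]; ring
    rw [e1, e2, hcdef]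
    field_simp
  have hX' : -X⁻¹ ≠ 0 := neg_ne_zero.2 (inv_ne_zero hX)
  have hyQ0 : -(c * (π₁ + π₂) / (2 * X ^ 3)) + c / 2 ≠ 0 := by
    rw [hyQ]
    exact mul_ne_zero (mul_ne_zero (pow_ne_zero 2 hπ1) hπ2) (pow_ne_zero 3 hX')
  have halQ : CubE (al Q) (π₁ ^ 2 * π₂) := by
    rw [al_isAt hQ hyQ0, hyQ]
    exact ⟨-X⁻¹, hX', rfl⟩
  have halT : al T = c := al_T hc hT
  have h12 : od p₁ π₂ = 0 := ho2 p₁ hp1 hp
  have h21 : od p₂ π₁ = 0 := ho1 p₂ hp2 (Ne.symm hp)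
  have hc1 : od p₁ c = 1 := by rw [hcdef, od_mul _ hπ1 hπ2, ho1', h12, add_zero]
  have hc2 : od p₂ c = 1 := by rw [hcdef, od_mul _ hπ1 hπ2, ho2', h21, zero_add]
  have hq0 : π₁ ^ 2 * π₂ ≠ 0 := mul_ne_zero (pow_ne_zero 2 hπ1) hπ2
  have hq1 : (3 : ℤ) ∣ od p₁ (al Q) - 2 := by
    have h := cubE_od halQ hq0 p₁
    rw [od_mul _ (pow_ne_zero 2 hπ1) hπ2, od_pow _ hπ1, ho1', h12] at h
    push_cast at h
    simpa using h
  have hq2 : (3 : ℤ) ∣ od p₂ (al Q) - 1 := by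
    have h := cubE_od halQ hq0 p₂
    rw [od_mul _ (pow_ne_zero 2 hπ1) hπ2, od_pow _ hπ1, ho2', h21] at h
    push_cast at h
    simpa using h
  refine ⟨c, p₁, p₂, T, Q, hc, hT, by rw [hc1]; norm_num, by rw [hc2]; norm_num, hq1, hq2, fun P => ?_⟩
  obtain ⟨a₁, ha₁⟩ : ∃ a : ℤ, a = od p₁ (al P) := ⟨_, rfl⟩
  obtain ⟨a₂, ha₂⟩ : ∃ a : ℤ, a = od p₂ (al P) := ⟨_, rfl⟩
  obtain ⟨e, he⟩ := o19_toNat (a₁ + a₂)
  obtain ⟨f, hf⟩ := o19_toNat (a₂ - a₁)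
  have hLS : LS S (al (P + e • T + f • Q)) := by
    refine ⟨al_ne hc _, fun v hv => ?_⟩
    by_cases hv1 : v = p₁
    · rw [hv1]
      have h := o19_od hc p₁ P T Q e f
      rw [halT, hc1, ← ha₁] at h
      obtain ⟨t, ht⟩ := hq1
      have e1 : (f : ℤ) * od p₁ (al Q) = 2 * f + 3 * (f * t) := by
        have : od p₁ (al Q) = 2 + 3 * t := by omega
        rw [this]; ring
      rw [e1] at h
      omega
    by_cases hv2 : v = p₂
    · rw [hv2]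
      have h := o19_od hc p₂ P T Q e f
      rw [halT, hc2, ← ha₂] at h
      obtain ⟨t, ht⟩ := hq2
      have e1 : (f : ℤ) * od p₂ (al Q) = f + 3 * (f * t) := by
        have : od p₂ (al Q) = 1 + 3 * t := by omega
        rw [this]; ring
      rw [e1] at h
      omega
    · refine al_od hc v ?_ _
      rw [hcdef, od_mul _ hπ1 hπ2, ho1 v hv hv1, ho2 v hv hv2]
      norm_num
  have hWl : ∀ v ∈ S, Wl v (κ v) (al (P + e • T + f • Q)) := by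
    intro v hv
    refine hNv v c (κ v) (hκ v) hc ?_ _
    have h1 := hr1.cong v hv
    have h2 := hr2.cong v hv
    have h3 := hx₀κ v hv
    have e1 : c / κ v ^ 4 = (π₁ / x₀ * (π₂ / x₀)) * (x₀ / κ v ^ 2 * (x₀ / κ v ^ 2)) := by
      rw [hcdef]
      have := hκ v
      field_simp
    rw [e1]
    refine (o19_near _ (o19_near _ h1 h2) (o19_near _ h3 h3)).trans_le ?_
    rw [WithZero.exp_le_exp]
    have := hN v hv
    omega
  obtain ⟨R, hR⟩ := al_cube hc hw _ (hsel _ hLS hWl)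
  exact ⟨e, f, R, hR⟩

end Pool.Agent.H52OM
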