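import Pool.Agent.Lib.H52OM.Defs
import Pool.Agent.Lib.H52OM.O15
import Pool.Agent.Lib.H52OM.O16
import Pool.Agent.Lib.H52OM.O19
import Pool.Agent.Lib.H52OM.Abs

/-!
# O20 (M): the point `Q` has infinite order

PROOF. Strong induction on `n`. `al (n Q) ~ (al Q)^n` has order `2 n` at `p₁` modulo 3, so `n Q = 0` implies `3 ∣ n`, `n = 3 n'`, `Q' = n' Q`, `3 Q' = 0`. With `φ R = R - w R`: `φ φ Q' = -3 w Q' = 0`, so
`φ Q' ∈ {0, T, -T}`; `φ Q' = ± T` would make `al (± T) = c^{±1}` a cube (`al_phi`), but it has order `± 1` at `p₁`. So `φ Q' = 0`, `Q' ∈ {0, ± T}`. `Q' = 0`: induction hypothesis. `Q' = ± T`: `2 n' = ± 1` (at `p₁`) and `n' = ± 1` (at `p₂`)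
modulo 3, so `n' = 0` and `± 1 = 0` modulo 3, a contradiction.
-/

set_option autoImplicit false

open NumberField IsDedekindDomain WeierstrassCurve WeierstrassCurve.Affine
open Pool.Agent.H60.UDef CFT
open Pool.Agent.H60R (Fc va emb va_emb)
open scoped WithZero

namespace Pool.Agent.H52OM

open Classical in
/-- `wac w` as an endomorphism. -/
noncomputable def wacHom {F : Type} [Field F] [CharZero F] {c w : F} (hc : c ≠ 0) (hw : w ^ 2 + w + 1 = 0) : Eo c →+ Eo c where
  toFun := wac w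
  map_zero' := wac_zero w
  map_add' := wac_add hc hw

open Classical in
/-- The order at `v` of `al (n Q)` modulo 3. -/
theorem o20_od {F : Type} [Field F] [NumberField F] {c : F} (hc : c ≠ 0) (v : Pr F) (Q : Eo c) (n : ℕ) :
    (3 : ℤ) ∣ od v (al (n • Q)) - n * od v (al Q) := by
  have hQ := al_ne hc Q
  have h := cubE_od (o19_nsmul hc Q n) (pow_ne_zero n hQ) v
  rwa [od_pow v hQ] at h

open Classical in
theorem o20_step {F : Type} [Field F] [NumberField F] {w : F} (hw : w ^ 2 + w + 1 = 0) {c : F} (hc : c ≠ 0) {p₁ : Pr F}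
    (h1 : (3 : ℤ) ∣ od p₁ c - 1) (R : Eo c) (h : R + R + R = 0) : R = 0 ∨ IsAt R 0 (c / 2) ∨ IsAt R 0 (-(c / 2)) := by
  apply phi_zero hc hw
  have h2 : (R - wac w R) - wac w (R - wac w R) = 0 := by
    have h3 := abs_phi (wacHom hc hw) (fun P => wac_sum hc hw P) R
    have h4 : (wacHom hc hw R + wacHom hc hw R + wacHom hc hw R) = wacHom hc hw (R + R + R) := by
      rw [map_add, map_add]
    rw [h4, h, map_zero, neg_zero] at h3
    exact h3
  rcases phi_zero hc hw _ h2 with h3 | h3 | h3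
  · exact h3
  · exfalso
    have h4 := cubE_od (al_phi hc hw R) one_ne_zero p₁
    rw [al_T hc h3, od_one] at h4
    omega
  · exfalso
    have h4 := cubE_od (al_phi hc hw R) one_ne_zero p₁
    rw [al_T' h3 (by ring), od_one, od_inv] at h4
    omega

open Classical in
theorem inf_order {F : Type} [Field F] [NumberField F] {w : F} (hw : w ^ 2 + w + 1 = 0) {c : F} (hc : c ≠ 0) {p₁ p₂ : Pr F} {Q : Eo c}
    (h1 : (3 : ℤ) ∣ od p₁ c - 1) (h2 : (3 : ℤ) ∣ od p₂ c - 1) (h3 : (3 : ℤ) ∣ od p₁ (al Q) - 2) (h4 : (3 : ℤ) ∣ od p₂ (al Q) - 1)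
    (n : ℕ) (hn : 0 < n) : n • Q ≠ 0 := by
  induction n using Nat.strong_induction_on with
  | _ n ih =>
    intro h0
    obtain ⟨t1, ht1⟩ := h3
    obtain ⟨t2, ht2⟩ := h4
    have e1 : ∀ k : ℕ, (k : ℤ) * od p₁ (al Q) = 2 * k + 3 * (k * t1) := fun k => by
      have : od p₁ (al Q) = 2 + 3 * t1 := by omega
      rw [this]; ring
    have e2 : ∀ k : ℕ, (k : ℤ) * od p₂ (al Q) = k + 3 * (k * t2) := fun k => by
      have : od p₂ (al Q) = 1 + 3 * t2 := by omega
      rw [this]; ring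
    have h5 := o20_od hc p₁ Q n
    rw [h0, al_zero, od_one, e1] at h5
    obtain ⟨k, hk⟩ : ∃ k : ℕ, n = k + k + k := ⟨n / 3, by omega⟩
    have hk0 : 0 < k := by omega
    have h6 : k • Q + k • Q + k • Q = 0 := by rw [← add_nsmul, ← add_nsmul, ← hk]; exact h0
    have g1 := o20_od hc p₁ Q k
    have g2 := o20_od hc p₂ Q k
    rw [e1] at g1
    rw [e2] at g2
    rcases o20_step hw hc h1 _ h6 with h7 | h7 | h7
    · exact ih k (by omega) hk0 h7
    · rw [al_T hc h7] at g1 g2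
      omega
    · rw [al_T' h7 (by ring), od_inv] at g1 g2
      omega

end Pool.Agent.H52OM
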