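import Pool.Agent.Lib.H52OM.Defs
import Pool.Agent.Lib.H52OM.O15
import Pool.Agent.Lib.H52OM.O20
import Pool.Agent.Lib.H52OM.Abs
import Pool.Agent.Lib.H52OM.MW3

/-!
# O21 (S/M): rank one. `abs_rank` (Abs.lean) for the endomorphism `wac w`, with the theorem `mw3_short` (MW3.lean).
-/

set_option autoImplicit false

open NumberField IsDedekindDomain WeierstrassCurve WeierstrassCurve.Affine
open Pool.Agent.H60.UDef CFT
open Pool.Agent.H60R (Fc va emb va_emb)
open scoped WithZero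

namespace Pool.Agent.H52OM

open Classical in
theorem wac_T {F : Type} [Field F] [CharZero F] {c w : F} (hc : c ≠ 0) (hw : w ^ 2 + w + 1 = 0) {T : Eo c} {y : F} (hT : IsAt T 0 y) :
    wac w T = T := by
  have h := wac_isAt hc hw hT
  rw [mul_zero] at h
  exact h.ext hT

open Classical in
theorem rank_one {F : Type} [Field F] [NumberField F] {w : F} (hw : w ^ 2 + w + 1 = 0) {c : F} (hc : c ≠ 0) {T Q : Eo c}
    (hT : IsAt T 0 (c / 2)) (h : ∀ P : Eo c, ∃ (e f : ℕ) (R : Eo c), P + e • T + f • Q = R - wac w R) :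
    ∃ m : ℕ, 0 < m ∧ ∀ P : Eo c, ∃ a b : ℤ, m • P = a • Q + b • wac w Q := by
  refine abs_rank (M := Eo c) (wacHom hc hw) (fun P => wac_sum hc hw P) ?_ (wac_T hc hw hT) h
  rintro ⟨S, hS, hrep⟩
  have hne : 4 * (0 : F) ^ 3 + 27 * ((c / 2) ^ 2) ^ 2 ≠ 0 := by
    have h2 : (c / 2) ^ 2 ≠ 0 := pow_ne_zero 2 (div_ne_zero hc two_ne_zero)
    have : 27 * ((c / 2) ^ 2) ^ 2 ≠ 0 := mul_ne_zero (by norm_num) (pow_ne_zero 2 h2)
    simpa using this
  exact mw3_short 0 ((c / 2) ^ 2) hne S hS hrep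

end Pool.Agent.H52OM
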