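import Pool.Agent.Lib.H52OM.Defs
import Pool.Agent.Lib.H52OM.O19
import Pool.Agent.Lib.H52OM.O20
import Pool.Agent.Lib.H52OM.O21

/-!
# O22: assembly: for every number field containing a primitive third root of unity `w` there is a curve `y² = x³ + (c/2)²` of `Z[w]`-rank exactly one.
-/

set_option autoImplicit false

open NumberField IsDedekindDomain WeierstrassCurve WeierstrassCurve.Affine
open Pool.Agent.H60.UDef CFT
open scoped WithZero

namespace Pool.Agent.H52OM

open Classical in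
theorem om_rank_one (F : Type) [Field F] [NumberField F] (hpd : PD3 F) {w : F} (hw : w ^ 2 + w + 1 = 0) :
    ∃ c : F, c ≠ 0 ∧ ∃ Q : Eo c, (∀ n : ℕ, 0 < n → n • Q ≠ 0) ∧
      ∃ m : ℕ, 0 < m ∧ ∀ P : Eo c, ∃ a b : ℤ, m • P = a • Q + b • wac w Q := by
  obtain ⟨c, p₁, p₂, T, Q, hc, hT, h1, h2, h3, h4, h5⟩ := curve_exists hw hpd
  exact ⟨c, hc, Q, inf_order hw hc h1 h2 h3 h4, rank_one hw hc hT h5⟩

end Pool.Agent.H52OM
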